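import Mathlib
import Pool.Agent.TH140.KC.Cov

/-!
Bounded covariant pairs and approximately invariant families in the centre of a C*-algebra:
limits of bounded families of operators along an ultrafilter, and the averaging argument.
-/

set_option autoImplicit false

open scoped InnerProductSpace ComplexConjugate Topology
open Filter

noncomputable section

namespace TH27.AA

open TH140.KC

variable {H : Type} [NormedAddCommGroup H] [InnerProductSpace ℂ H] [CompleteSpace H]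

section ulim

variable {ι : Type}

theorem tendsto_exists (U : Ultrafilter ι) (f : ι → ℂ) (R : ℝ) (hf : ∀ i, ‖f i‖ ≤ R) :
    ∃ l : ℂ, Tendsto f U (𝓝 l) := by
  have hc : IsCompact (Metric.closedBall (0 : ℂ) R) := isCompact_closedBall _ _
  have h1 : ((U.map f : Ultrafilter ℂ) : Filter ℂ) ≤ 𝓟 (Metric.closedBall (0 : ℂ) R) := by
    rw [le_principal_iff]
    exact Filter.Eventually.of_forall (f := (U : Filter ι)) fun i => by simpa using hf i
  obtain ⟨l, _, hl⟩ := hc.ultrafilter_le_nhds (U.map f) h1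
  exact ⟨l, hl⟩

/-- The limit of a bounded family of operators along an ultrafilter. -/
theorem exists_ulim (U : Ultrafilter ι) (S : ι → (H →L[ℂ] H)) (R : ℝ)
    (hS : ∀ i x y, ‖⟪S i x, y⟫_ℂ‖ ≤ R * ‖x‖ * ‖y‖) :
    ∃ T : H →L[ℂ] H, ∀ x y, Tendsto (fun i => ⟪S i x, y⟫_ℂ) U (𝓝 ⟪T x, y⟫_ℂ) := by
  have hl : ∀ x y, ∃ l : ℂ, Tendsto (fun i => ⟪S i x, y⟫_ℂ) U (𝓝 l) := fun x y =>
    tendsto_exists U _ _ (fun i => hS i x y)
  choose L hL using hl
  let B0 : H →ₗ⋆[ℂ] H →ₗ[ℂ] ℂ := LinearMap.mk₂'ₛₗ (starRingEnd ℂ) (RingHom.id ℂ)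
    (fun x y => L x y)
    (fun x x' y => by
      refine tendsto_nhds_unique (hL (x + x') y) ?_
      refine ((hL x y).add (hL x' y)).congr fun i => ?_
      rw [map_add, inner_add_left])
    (fun c x y => by
      refine tendsto_nhds_unique (hL (c • x) y) ?_
      refine ((hL x y).const_mul ((starRingEnd ℂ) c)).congr fun i => ?_
      rw [map_smul, inner_smul_left])
    (fun x y y' => by
      refine tendsto_nhds_unique (hL x (y + y')) ?_
      refine ((hL x y).add (hL x y')).congr fun i => ?_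
      rw [inner_add_right])
    (fun c x y => by
      refine tendsto_nhds_unique (hL x (c • y)) ?_
      refine ((hL x y).const_mul c).congr fun i => ?_
      rw [inner_smul_right])
  have hB0 : ∀ x y, ‖B0 x y‖ ≤ R * ‖x‖ * ‖y‖ := fun x y =>
    le_of_tendsto (hL x y).norm (Filter.Eventually.of_forall fun i => hS i x y)
  refine ⟨InnerProductSpace.continuousLinearMapOfBilin (B0.mkContinuous₂ R hB0), ?_⟩
  intro x y
  rw [InnerProductSpace.continuousLinearMapOfBilin_apply, LinearMap.mkContinuous₂_apply]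
  exact hL x y

end ulim

variable {A : Type} [CStarAlgebra A] {G : Type} [Group G] {Y : Type} [MulAction G Y]

/-- There are finitely supported functions `f : Y → Z(A)`, `∑ f(y)* f(y) = 1`, which are
approximately invariant under the action of `G`. -/
def AmenableOver (α : G →* (A ≃⋆ₐ[ℂ] A)) (Y : Type) [MulAction G Y] : Prop :=
  ∀ (F : Finset G) (ε : ℝ), 0 < ε → ∃ f : Y → A, (Function.support f).Finite ∧
    (∀ y a, f y * a = a * f y) ∧ ∑ᶠ y, star (f y) * f y = 1 ∧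
    ∀ s ∈ F, ‖∑ᶠ y, star (α s (f (s⁻¹ • y)) - f y) * (α s (f (s⁻¹ • y)) - f y)‖ ≤ ε

section sums

variable (u : A →ₐ[ℂ] (H →L[ℂ] H)) (T : Y → (H →L[ℂ] H))

theorem term_eq {T₀ : H →L[ℂ] H} (hT₀ : ∀ a, T₀ * u (star a) = star (u a) * T₀) (a : A) :
    star (u a) * T₀ * u a = T₀ * u (star a * a) := by
  rw [map_mul, ← mul_assoc, hT₀]

theorem inner_term (T₀ : H →L[ℂ] H) (a : A) (x z : H) :
    ⟪(star (u a) * T₀ * u a) x, z⟫_ℂ = ⟪T₀ (u a x), u a z⟫_ℂ := by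
  change ⟪(star (u a)) (T₀ (u a x)), z⟫_ℂ = _
  rw [ContinuousLinearMap.star_eq_adjoint, ContinuousLinearMap.adjoint_inner_left]

theorem sum_apply' {κ : Type} (B : Finset κ) (S : κ → (H →L[ℂ] H)) (x : H) :
    (∑ y ∈ B, S y) x = ∑ y ∈ B, S y x := by
  rw [ContinuousLinearMap.sum_apply]

theorem ref_sum {T₀ : H →L[ℂ] H} (hT₀ : ∀ a, T₀ * u (star a) = star (u a) * T₀) (B : Finset Y)
    (a : Y → A) (x : H) :
    ∑ y ∈ B, (⟪T₀ (u (a y) x), u (a y) x⟫_ℂ).re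
      = (⟪T₀ (u (∑ y ∈ B, star (a y) * a y) x), x⟫_ℂ).re := by
  have h : ∑ y ∈ B, star (u (a y)) * T₀ * u (a y) = T₀ * u (∑ y ∈ B, star (a y) * a y) := by
    rw [map_sum, Finset.mul_sum]
    exact Finset.sum_congr rfl fun y _ => term_eq u hT₀ (a y)
  have h2 : (⟪(∑ y ∈ B, star (u (a y)) * T₀ * u (a y)) x, x⟫_ℂ).re
      = ∑ y ∈ B, (⟪T₀ (u (a y) x), u (a y) x⟫_ℂ).re := by
    rw [sum_apply', sum_inner, Complex.re_sum]
    exact Finset.sum_congr rfl fun y _ => by rw [inner_term]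
  rw [← h2, h]
  rfl

/-- upper bound for square sums -/
theorem sumsq {T₀ : H →L[ℂ] H} (hT₀ : ∀ a, T₀ * u (star a) = star (u a) * T₀) {k K cu : ℝ}
    (hk : 0 < k) (hl : ∀ x, k * ‖x‖ ^ 2 ≤ (⟪T₀ x, x⟫_ℂ).re) (hn : ‖T₀‖ ≤ K) (hK : 0 ≤ K)
    (hu : ∀ a, ‖u a‖ ≤ cu * ‖a‖) (B : Finset Y) (a : Y → A) (x : H) :
    k * ∑ y ∈ B, ‖u (a y) x‖ ^ 2 ≤ K * (cu * ‖∑ y ∈ B, star (a y) * a y‖) * ‖x‖ ^ 2 := by
  calc k * ∑ y ∈ B, ‖u (a y) x‖ ^ 2 = ∑ y ∈ B, k * ‖u (a y) x‖ ^ 2 := Finset.mul_sum _ _ _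
    _ ≤ ∑ y ∈ B, (⟪T₀ (u (a y) x), u (a y) x⟫_ℂ).re := Finset.sum_le_sum fun y _ => hl _
    _ = (⟪T₀ (u (∑ y ∈ B, star (a y) * a y) x), x⟫_ℂ).re := ref_sum u hT₀ B a x
    _ ≤ ‖⟪T₀ (u (∑ y ∈ B, star (a y) * a y) x), x⟫_ℂ‖ := Complex.re_le_norm _
    _ ≤ ‖T₀ (u (∑ y ∈ B, star (a y) * a y) x)‖ * ‖x‖ := norm_inner_le_norm _ _
    _ ≤ (K * ((cu * ‖∑ y ∈ B, star (a y) * a y‖) * ‖x‖)) * ‖x‖ := by
        refine mul_le_mul_of_nonneg_right ?_ (norm_nonneg _)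
        refine (T₀.le_opNorm _).trans (mul_le_mul hn ?_ (norm_nonneg _) hK)
        exact ((u _).le_opNorm _).trans (mul_le_mul_of_nonneg_right (hu _) (norm_nonneg _))
    _ = _ := by ring

/-- lower bound for square sums -/
theorem sumsq_low {T₀ : H →L[ℂ] H} (hT₀ : ∀ a, T₀ * u (star a) = star (u a) * T₀) {k K : ℝ}
    (hl : ∀ x, k * ‖x‖ ^ 2 ≤ (⟪T₀ x, x⟫_ℂ).re) (hn : ‖T₀‖ ≤ K)
    (B : Finset Y) (a : Y → A) (ha : ∑ y ∈ B, star (a y) * a y = 1) (x : H) :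
    k * ‖x‖ ^ 2 ≤ K * ∑ y ∈ B, ‖u (a y) x‖ ^ 2 := by
  have h := ref_sum u hT₀ B a x
  rw [ha, map_one] at h
  calc k * ‖x‖ ^ 2 ≤ (⟪T₀ x, x⟫_ℂ).re := hl x
    _ = ∑ y ∈ B, (⟪T₀ (u (a y) x), u (a y) x⟫_ℂ).re := h.symm
    _ ≤ ∑ y ∈ B, K * ‖u (a y) x‖ ^ 2 := by
        refine Finset.sum_le_sum fun y _ => ?_
        refine (Complex.re_le_norm _).trans ((norm_inner_le_norm _ _).trans ?_)
        calc ‖T₀ (u (a y) x)‖ * ‖u (a y) x‖ ≤ (K * ‖u (a y) x‖) * ‖u (a y) x‖ := by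
              refine mul_le_mul_of_nonneg_right ?_ (norm_nonneg _)
              exact (T₀.le_opNorm _).trans (mul_le_mul_of_nonneg_right hn (norm_nonneg _))
          _ = _ := by ring
    _ = _ := (Finset.mul_sum _ _ _).symm

/-- the averaged operator -/
def Av (B : Finset Y) (f : Y → A) : H →L[ℂ] H := ∑ y ∈ B, star (u (f y)) * T y * u (f y)

theorem inner_Av (B : Finset Y) (f : Y → A) (x z : H) :
    ⟪Av u T B f x, z⟫_ℂ = ∑ y ∈ B, ⟪T y (u (f y) x), u (f y) z⟫_ℂ := by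
  rw [Av, sum_apply', sum_inner]
  exact Finset.sum_congr rfl fun y _ => inner_term u (T y) (f y) x z

theorem Av_comm (hTA : ∀ y a, T y * u (star a) = star (u a) * T y) (B : Finset Y) (f : Y → A)
    (hf : ∀ y a, f y * a = a * f y) (a : A) :
    Av u T B f * u (star a) = star (u a) * Av u T B f := by
  rw [Av, Finset.sum_mul, Finset.mul_sum]
  refine Finset.sum_congr rfl fun y _ => ?_
  have h1 : star (f y) * f y * star a = star a * (star (f y) * f y) := by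
    have h2 := congrArg star (hf y a)
    rw [star_mul, star_mul] at h2
    rw [mul_assoc, hf y (star a), ← mul_assoc, ← h2, mul_assoc]
  rw [term_eq u (hTA y), mul_assoc, ← map_mul, h1, map_mul, ← mul_assoc, hTA, mul_assoc]

theorem Av_sa (hTs : ∀ y, IsSelfAdjoint (T y)) (B : Finset Y) (f : Y → A) :
    IsSelfAdjoint (Av u T B f) := by
  unfold Av
  refine isSelfAdjoint_sum _ fun y _ => ?_
  exact (hTs y).conjugate' (u (f y))

/-- difference of two averages -/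
theorem Av_diff (B : Finset Y) (f h : Y → A) {K : ℝ} (hn : ∀ y, ‖T y‖ ≤ K) (hK : 0 ≤ K)
    (δ : ℝ) (hδ : 0 < δ) (x : H) :
    ‖⟪Av u T B h x, x⟫_ℂ - ⟪Av u T B f x, x⟫_ℂ‖ ≤
      K * (1 / (2 * δ) * ∑ y ∈ B, ‖u (h y - f y) x‖ ^ 2 +
        δ * (∑ y ∈ B, ‖u (h y) x‖ ^ 2 + ∑ y ∈ B, ‖u (f y) x‖ ^ 2)) := by
  rw [inner_Av, inner_Av, ← Finset.sum_sub_distrib, Finset.mul_sum, ← Finset.sum_add_distrib,
    Finset.mul_sum, ← Finset.sum_add_distrib, Finset.mul_sum]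
  refine (norm_sum_le _ _).trans (Finset.sum_le_sum fun y _ => ?_)
  set a := u (h y) x with ha
  set b := u (f y) x with hb
  have hab : u (h y - f y) x = a - b := by rw [map_sub]; rfl
  rw [hab]
  have e : ⟪T y a, a⟫_ℂ - ⟪T y b, b⟫_ℂ = ⟪T y (a - b), a⟫_ℂ + ⟪T y b, a - b⟫_ℂ := by
    rw [map_sub, inner_sub_left, inner_sub_right]; ring
  have h1 : ∀ v w : H, ‖⟪T y v, w⟫_ℂ‖ ≤ K * ‖v‖ * ‖w‖ := fun v w =>
    (norm_inner_le_norm _ _).trans (mul_le_mul_of_nonneg_right (((T y).le_opNorm _).trans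
      (mul_le_mul_of_nonneg_right (hn y) (norm_nonneg _))) (norm_nonneg _))
  have key : ‖a - b‖ * (‖a‖ + ‖b‖) ≤
      1 / (2 * δ) * ‖a - b‖ ^ 2 + δ * (‖a‖ ^ 2 + ‖b‖ ^ 2) := by
    set p := ‖a - b‖
    set q := ‖a‖
    set r := ‖b‖
    have h2 : 1 / (2 * δ) * p ^ 2 + δ * (q ^ 2 + r ^ 2) - p * (q + r)
        = 1 / (2 * δ) * (p - δ * (q + r)) ^ 2 + δ / 2 * (q - r) ^ 2 := by
      field_simp
      ring
    have h3 : 0 ≤ 1 / (2 * δ) * (p - δ * (q + r)) ^ 2 + δ / 2 * (q - r) ^ 2 := by positivity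
    linarith
  calc ‖⟪T y a, a⟫_ℂ - ⟪T y b, b⟫_ℂ‖ ≤ K * ‖a - b‖ * ‖a‖ + K * ‖b‖ * ‖a - b‖ := by
        rw [e]
        exact (norm_add_le _ _).trans (add_le_add (h1 _ _) (h1 _ _))
    _ = K * (‖a - b‖ * (‖a‖ + ‖b‖)) := by ring
    _ ≤ _ := mul_le_mul_of_nonneg_left key hK

end sums

end TH27.AA
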