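import Mathlib
import Pool.Agent.TH27.AA.Core

/-!
The averaging argument for amenable actions.
-/

set_option autoImplicit false

open scoped InnerProductSpace ComplexConjugate Topology
open Filter

noncomputable section

namespace TH27.AA

open TH140.KC

variable {H : Type} [NormedAddCommGroup H] [InnerProductSpace ℂ H] [CompleteSpace H]
variable {A : Type} [CStarAlgebra A] {G : Type} [Group G] {Y : Type} [MulAction G Y]

theorem Av_congr (u : A →ₐ[ℂ] (H →L[ℂ] H)) (T : Y → (H →L[ℂ] H)) {B C : Finset Y} (f : Y → A)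
    (hBC : B ⊆ C) (hf : ∀ y ∉ B, f y = 0) : Av u T B f = Av u T C f := by
  unfold Av
  refine Finset.sum_subset hBC fun y _ hy => ?_
  rw [hf y hy, map_zero, mul_zero]

/-- approximate invariance of the averages -/
theorem Av_inv (α : G →* (A ≃⋆ₐ[ℂ] A)) (u : A →ₐ[ℂ] (H →L[ℂ] H)) (π : G →* (H →L[ℂ] H)ˣ)
    (hcov : ∀ g x, ((π g : (H →L[ℂ] H)ˣ) : H →L[ℂ] H) * u x = u (α g x) * π g)
    {cu : ℝ} (hcu : 0 ≤ cu) (hu : ∀ x, ‖u x‖ ≤ cu * ‖x‖) (y₀ : Y)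
    (T : Y → (H →L[ℂ] H)) {k K : ℝ} (hk : 0 < k) (hK : 0 ≤ K)
    (hTl : ∀ y x, k * ‖x‖ ^ 2 ≤ (⟪T y x, x⟫_ℂ).re)
    (hTn : ∀ y, ‖T y‖ ≤ K) (hTA : ∀ y a, T y * u (star a) = star (u a) * T y)
    (hTG : ∀ (s : G) y, star ((π s : (H →L[ℂ] H)ˣ) : H →L[ℂ] H) * T (s • y) * π s = T y)
    (B : Finset Y) (f : Y → A) (hB : ∀ y ∉ B, f y = 0)
    (h1 : ∑ y ∈ B, star (f y) * f y = 1) (s : G) (δ : ℝ) (hδ : 0 < δ)
    (hinv : ‖∑ᶠ y, star (α s⁻¹ (f ((s⁻¹)⁻¹ • y)) - f y) * (α s⁻¹ (f ((s⁻¹)⁻¹ • y)) - f y)‖ ≤ δ ^ 2)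
    (x : H) :
    ‖⟪Av u T B f (((π s : (H →L[ℂ] H)ˣ) : H →L[ℂ] H) x), ((π s : (H →L[ℂ] H)ˣ) : H →L[ℂ] H) x⟫_ℂ
        - ⟪Av u T B f x, x⟫_ℂ‖ ≤
      K * (K * cu / k * (1 / 2 + 2 * ‖(1 : A)‖)) * δ * ‖x‖ ^ 2 := by
  classical
  set t : G := s⁻¹ with ht
  set h : Y → A := fun z => α t (f (t⁻¹ • z)) with hh
  let e : Y ↪ Y := (MulAction.toPerm t).toEmbedding
  have he : ∀ y, e y = t • y := fun y => rfl
  set C : Finset Y := B ∪ B.map e with hC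
  have hCh : ∀ z ∉ B.map e, h z = 0 := by
    intro z hz
    have : t⁻¹ • z ∉ B := by
      intro hz'
      apply hz
      rw [Finset.mem_map]
      exact ⟨t⁻¹ • z, hz', by rw [he, smul_inv_smul]⟩
    simp only [hh, hB _ this, map_zero]
  have hCf : ∀ z ∉ B, f z = 0 := hB
  -- rewrite the first term
  have e1 : ⟪Av u T B f (((π s : (H →L[ℂ] H)ˣ) : H →L[ℂ] H) x), ((π s : (H →L[ℂ] H)ˣ) : H →L[ℂ] H) x⟫_ℂ
      = ⟪Av u T C h x, x⟫_ℂ := by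
    rw [← Av_congr u T (C := C) h Finset.subset_union_right hCh, inner_Av, inner_Av,
      Finset.sum_map]
    refine Finset.sum_congr rfl fun y _ => ?_
    have a1 : h (e y) = α t (f y) := by simp only [hh, he, inv_smul_smul]
    have a2 : u (f y) (((π s : (H →L[ℂ] H)ˣ) : H →L[ℂ] H) x)
        = ((π s : (H →L[ℂ] H)ˣ) : H →L[ℂ] H) (u (α t (f y)) x) := by
      have b1 := hcov t (f y)
      have b2 : ((π s : (H →L[ℂ] H)ˣ) : H →L[ℂ] H) * ((π t : (H →L[ℂ] H)ˣ) : H →L[ℂ] H) = 1 := by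
        rw [← Units.val_mul, ← map_mul, ht, mul_inv_cancel, map_one, Units.val_one]
      have b3 : ((π t : (H →L[ℂ] H)ˣ) : H →L[ℂ] H) * ((π s : (H →L[ℂ] H)ˣ) : H →L[ℂ] H) = 1 := by
        rw [← Units.val_mul, ← map_mul, ht, inv_mul_cancel, map_one, Units.val_one]
      have b4 : u (f y) * ((π s : (H →L[ℂ] H)ˣ) : H →L[ℂ] H)
          = ((π s : (H →L[ℂ] H)ˣ) : H →L[ℂ] H) * u (α t (f y)) := by
        calc u (f y) * ((π s : (H →L[ℂ] H)ˣ) : H →L[ℂ] H)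
            = ((π s : (H →L[ℂ] H)ˣ) : H →L[ℂ] H) * (((π t : (H →L[ℂ] H)ˣ) : H →L[ℂ] H) * u (f y))
              * ((π s : (H →L[ℂ] H)ˣ) : H →L[ℂ] H) := by
              rw [← mul_assoc, b2, one_mul]
          _ = _ := by rw [b1, mul_assoc, mul_assoc, b3, mul_one]
      exact congrArg (fun F : H →L[ℂ] H => F x) b4
    have a3 : T (e y) = star ((π s : (H →L[ℂ] H)ˣ) : H →L[ℂ] H) * T y * π s := by
      rw [← hTG s (e y), he, ht, smul_inv_smul]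
    rw [a1, a2, a3]
    generalize u (α t (f y)) x = v
    change _ = ⟪(star ((π s : (H →L[ℂ] H)ˣ) : H →L[ℂ] H)) (T y (((π s : (H →L[ℂ] H)ˣ) : H →L[ℂ] H) v)), v⟫_ℂ
    rw [ContinuousLinearMap.star_eq_adjoint, ContinuousLinearMap.adjoint_inner_left]
  have e2 : ⟪Av u T B f x, x⟫_ℂ = ⟪Av u T C f x, x⟫_ℂ := by
    rw [← Av_congr u T (C := C) f Finset.subset_union_left hCf]
  rw [e1, e2]
  -- sums of squares
  have s1 : ∑ y ∈ C, star (f y) * f y = 1 := by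
    rw [← h1]
    symm
    refine Finset.sum_subset Finset.subset_union_left fun y _ hy => ?_
    rw [hCf y hy, mul_zero]
  have s2 : ∑ y ∈ C, star (h y) * h y = 1 := by
    have c1 : ∑ y ∈ C, star (h y) * h y = ∑ y ∈ B.map e, star (h y) * h y := by
      symm
      refine Finset.sum_subset Finset.subset_union_right fun y _ hy => ?_
      rw [hCh y hy, mul_zero]
    rw [c1, Finset.sum_map]
    have c2 : ∀ y ∈ B, star (h (e y)) * h (e y) = α t (star (f y) * f y) := by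
      intro y _
      simp only [hh, he, inv_smul_smul, map_mul, map_star]
    rw [Finset.sum_congr rfl c2, ← map_sum, h1, map_one]
  have s3 : ‖∑ y ∈ C, star (h y - f y) * (h y - f y)‖ ≤ δ ^ 2 := by
    refine le_trans (le_of_eq ?_) hinv
    congr 1
    symm
    refine finsum_eq_sum_of_support_subset _ ?_
    intro y hy
    by_contra hcon
    have hy1 : y ∉ B := fun h' => hcon (by simp [hC, h'])
    have hy2 : y ∉ B.map e := fun h' => hcon (by rw [hC, Finset.coe_union]; exact Or.inr h')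
    apply hy
    have d1 := hCh y hy2
    simp only [hh] at d1
    simp only [d1, hCf y hy1, sub_zero, mul_zero]
  have q1 := sumsq u (hTA y₀) hk (hTl y₀) (hTn y₀) hK hu C f x
  have q2 := sumsq u (hTA y₀) hk (hTl y₀) (hTn y₀) hK hu C h x
  have q3 := sumsq u (hTA y₀) hk (hTl y₀) (hTn y₀) hK hu C (fun y => h y - f y) x
  rw [s1] at q1
  rw [s2] at q2
  have q3' : k * ∑ y ∈ C, ‖u (h y - f y) x‖ ^ 2 ≤ K * (cu * δ ^ 2) * ‖x‖ ^ 2 := by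
    refine q3.trans ?_
    gcongr
  have key := Av_diff u T C f h hTn hK δ hδ x
  refine key.trans ?_
  have r1 : ∑ y ∈ C, ‖u (f y) x‖ ^ 2 ≤ K * cu / k * ‖(1 : A)‖ * ‖x‖ ^ 2 := by
    rw [← mul_le_mul_iff_right₀ hk]
    refine q1.trans (le_of_eq ?_)
    field_simp
  have r2 : ∑ y ∈ C, ‖u (h y) x‖ ^ 2 ≤ K * cu / k * ‖(1 : A)‖ * ‖x‖ ^ 2 := by
    rw [← mul_le_mul_iff_right₀ hk]
    refine q2.trans (le_of_eq ?_)
    field_simp
  have r3 : ∑ y ∈ C, ‖u (h y - f y) x‖ ^ 2 ≤ K * cu / k * δ ^ 2 * ‖x‖ ^ 2 := by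
    rw [← mul_le_mul_iff_right₀ hk]
    refine q3'.trans (le_of_eq ?_)
    field_simp
  have r4 : 1 / (2 * δ) * ∑ y ∈ C, ‖u (h y - f y) x‖ ^ 2 ≤
      1 / (2 * δ) * (K * cu / k * δ ^ 2 * ‖x‖ ^ 2) := by gcongr
  have r5 : 1 / (2 * δ) * (K * cu / k * δ ^ 2 * ‖x‖ ^ 2) = K * cu / k * (δ / 2) * ‖x‖ ^ 2 := by
    field_simp
  have r6 : δ * (∑ y ∈ C, ‖u (h y) x‖ ^ 2 + ∑ y ∈ C, ‖u (f y) x‖ ^ 2) ≤
      δ * (K * cu / k * ‖(1 : A)‖ * ‖x‖ ^ 2 + K * cu / k * ‖(1 : A)‖ * ‖x‖ ^ 2) := by gcongr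
  calc K * (1 / (2 * δ) * ∑ y ∈ C, ‖u (h y - f y) x‖ ^ 2 +
        δ * (∑ y ∈ C, ‖u (h y) x‖ ^ 2 + ∑ y ∈ C, ‖u (f y) x‖ ^ 2))
      ≤ K * (K * cu / k * (δ / 2) * ‖x‖ ^ 2 +
        δ * (K * cu / k * ‖(1 : A)‖ * ‖x‖ ^ 2 + K * cu / k * ‖(1 : A)‖ * ‖x‖ ^ 2)) := by
        rw [← r5]
        gcongr
    _ = _ := by ring

end TH27.AA
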