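import Mathlib
import Pool.Agent.TH27.AA.Main

/-!
The averaging theorem: from an equivariant family of invariant forms to one invariant form.
-/

set_option autoImplicit false

open scoped InnerProductSpace ComplexConjugate Topology
open Filter

noncomputable section

namespace TH27.AA

open TH140.KC

variable {H : Type} [NormedAddCommGroup H] [InnerProductSpace ℂ H] [CompleteSpace H]

theorem unitary_of_inv (ξ p : (H →L[ℂ] H)ˣ) {T : H →L[ℂ] H}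
    (hξT : star (ξ : H →L[ℂ] H) * ξ = T) (hinv : star (p : H →L[ℂ] H) * T * p = T) :
    (ξ : H →L[ℂ] H) * p * ((ξ⁻¹ : (H →L[ℂ] H)ˣ) : H →L[ℂ] H) ∈ unitary (H →L[ℂ] H) := by
  have h3 : (ξ : H →L[ℂ] H) * ((ξ⁻¹ : (H →L[ℂ] H)ˣ) : H →L[ℂ] H) = 1 := Units.mul_inv ξ
  have h5 := star_inv_mul ξ
  set W : (H →L[ℂ] H)ˣ := ξ * p * ξ⁻¹ with hW
  have hW' : (W : H →L[ℂ] H) = (ξ : H →L[ℂ] H) * p * ((ξ⁻¹ : (H →L[ℂ] H)ˣ) : H →L[ℂ] H) := rfl
  have hWW : star (W : H →L[ℂ] H) * W = 1 := by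
    rw [hW', star_mul, star_mul]
    calc star ((ξ⁻¹ : (H →L[ℂ] H)ˣ) : H →L[ℂ] H) *
          (star (p : H →L[ℂ] H) * star (ξ : H →L[ℂ] H)) *
          ((ξ : H →L[ℂ] H) * p * ((ξ⁻¹ : (H →L[ℂ] H)ˣ) : H →L[ℂ] H))
        = star ((ξ⁻¹ : (H →L[ℂ] H)ˣ) : H →L[ℂ] H) *
          (star (p : H →L[ℂ] H) * (star (ξ : H →L[ℂ] H) * ξ) * p) *
          ((ξ⁻¹ : (H →L[ℂ] H)ˣ) : H →L[ℂ] H) := by simp only [mul_assoc]
      _ = star ((ξ⁻¹ : (H →L[ℂ] H)ˣ) : H →L[ℂ] H) * (star (ξ : H →L[ℂ] H) * ξ) *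
          ((ξ⁻¹ : (H →L[ℂ] H)ˣ) : H →L[ℂ] H) := by rw [hξT, hinv]
      _ = 1 := by rw [← mul_assoc, h5, one_mul, h3]
  rw [← hW', Unitary.mem_iff]
  refine ⟨hWW, ?_⟩
  have : star (W : H →L[ℂ] H) = ((W⁻¹ : (H →L[ℂ] H)ˣ) : H →L[ℂ] H) := by
    calc star (W : H →L[ℂ] H)
        = star (W : H →L[ℂ] H) * (W * ((W⁻¹ : (H →L[ℂ] H)ˣ) : H →L[ℂ] H)) := by
          rw [Units.mul_inv, mul_one]
      _ = _ := by rw [← mul_assoc, hWW, one_mul]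
  rw [this, Units.mul_inv]

/-- the converse -/
theorem inv_of_unitary (ξ p : (H →L[ℂ] H)ˣ)
    (h : (ξ : H →L[ℂ] H) * p * ((ξ⁻¹ : (H →L[ℂ] H)ˣ) : H →L[ℂ] H) ∈ unitary (H →L[ℂ] H)) :
    star (p : H →L[ℂ] H) * (star (ξ : H →L[ℂ] H) * ξ) * p = star (ξ : H →L[ℂ] H) * ξ := by
  have h1 := (Unitary.mem_iff.1 h).1
  rw [star_mul, star_mul] at h1
  have h2 : star (ξ : H →L[ℂ] H) * star ((ξ⁻¹ : (H →L[ℂ] H)ˣ) : H →L[ℂ] H) = 1 := star_mul_inv ξ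
  have h4 : ((ξ⁻¹ : (H →L[ℂ] H)ˣ) : H →L[ℂ] H) * (ξ : H →L[ℂ] H) = 1 := Units.inv_mul ξ
  calc star (p : H →L[ℂ] H) * (star (ξ : H →L[ℂ] H) * ξ) * p
      = (star (ξ : H →L[ℂ] H) * star ((ξ⁻¹ : (H →L[ℂ] H)ˣ) : H →L[ℂ] H)) *
        (star (p : H →L[ℂ] H) * (star (ξ : H →L[ℂ] H) * ξ) * p) *
        (((ξ⁻¹ : (H →L[ℂ] H)ˣ) : H →L[ℂ] H) * (ξ : H →L[ℂ] H)) := by
        rw [h2, h4, one_mul, mul_one]
    _ = star (ξ : H →L[ℂ] H) * (star ((ξ⁻¹ : (H →L[ℂ] H)ˣ) : H →L[ℂ] H) *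
          (star (p : H →L[ℂ] H) * star (ξ : H →L[ℂ] H)) *
          ((ξ : H →L[ℂ] H) * p * ((ξ⁻¹ : (H →L[ℂ] H)ˣ) : H →L[ℂ] H))) * ξ := by
        simp only [mul_assoc]
    _ = _ := by rw [h1, mul_one]

variable {A : Type} [CStarAlgebra A] {G : Type} [Group G] {Y : Type} [MulAction G Y]

/-- the averaging theorem -/
theorem core (α : G →* (A ≃⋆ₐ[ℂ] A)) (hA : AmenableOver α Y) (u : A →ₐ[ℂ] (H →L[ℂ] H))
    (π : G →* (H →L[ℂ] H)ˣ)
    (hcov : ∀ g x, ((π g : (H →L[ℂ] H)ˣ) : H →L[ℂ] H) * u x = u (α g x) * π g)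
    {cu : ℝ} (hcu : 0 ≤ cu) (hu : ∀ x, ‖u x‖ ≤ cu * ‖x‖) (y₀ : Y)
    (T : Y → (H →L[ℂ] H)) {k K : ℝ} (hk : 0 < k) (hK : 0 < K)
    (hTs : ∀ y, IsSelfAdjoint (T y))
    (hTl : ∀ y x, k * ‖x‖ ^ 2 ≤ (⟪T y x, x⟫_ℂ).re)
    (hTn : ∀ y, ‖T y‖ ≤ K) (hTA : ∀ y a, T y * u (star a) = star (u a) * T y)
    (hTG : ∀ (s : G) y, star ((π s : (H →L[ℂ] H)ˣ) : H →L[ℂ] H) * T (s • y) * π s = T y) :
    ∃ ξ : (H →L[ℂ] H)ˣ,
      (∀ x : A, (ξ : H →L[ℂ] H) * u (star x) * ((ξ⁻¹ : (H →L[ℂ] H)ˣ) : H →L[ℂ] H)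
        = star ((ξ : H →L[ℂ] H) * u x * ((ξ⁻¹ : (H →L[ℂ] H)ˣ) : H →L[ℂ] H))) ∧
      ∀ g : G, (ξ : H →L[ℂ] H) * π g * ((ξ⁻¹ : (H →L[ℂ] H)ˣ) : H →L[ℂ] H)
        ∈ unitary (H →L[ℂ] H) := by
  classical
  have hch : ∀ i : Finset G × ℕ, ∃ f : Y → A, (Function.support f).Finite ∧
      (∀ y a, f y * a = a * f y) ∧ ∑ᶠ y, star (f y) * f y = 1 ∧
      ∀ s ∈ i.1, ‖∑ᶠ y, star (α s (f (s⁻¹ • y)) - f y) * (α s (f (s⁻¹ • y)) - f y)‖
        ≤ (1 / ((i.2 : ℝ) + 1)) ^ 2 := fun i => hA i.1 _ (by positivity)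
  choose f hf1 hf2 hf3 hf4 using hch
  let B : Finset G × ℕ → Finset Y := fun i => (hf1 i).toFinset
  have hB : ∀ i, ∀ y ∉ B i, f i y = 0 := by
    intro i y hy
    by_contra h
    exact hy (by simpa [B] using h)
  have hone : ∀ i, ∑ y ∈ B i, star (f i y) * f i y = 1 := by
    intro i
    rw [← hf3 i]
    symm
    refine finsum_eq_sum_of_support_subset _ ?_
    intro y hy
    simp only [B, Set.Finite.coe_toFinset, Function.mem_support]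
    intro h0
    exact hy (by simp [h0])
  set U : Ultrafilter (Finset G × ℕ) := Ultrafilter.of atTop with hUdef
  have hU : (U : Filter (Finset G × ℕ)) ≤ atTop := Ultrafilter.of_le _
  set S : Finset G × ℕ → (H →L[ℂ] H) := fun i => Av u T (B i) (f i) with hS
  set N : ℝ := K * cu / k * ‖(1 : A)‖ with hNdef
  have hN0 : 0 ≤ N := by positivity
  have hN : ∀ i x, ∑ y ∈ B i, ‖u (f i y) x‖ ^ 2 ≤ N * ‖x‖ ^ 2 := by
    intro i x
    have q := sumsq u (hTA y₀) hk (hTl y₀) (hTn y₀) hK.le hu (B i) (f i) x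
    rw [hone] at q
    rw [← mul_le_mul_iff_right₀ hk]
    refine q.trans (le_of_eq ?_)
    rw [hNdef]
    field_simp
  have hSb : ∀ i x z, ‖⟪S i x, z⟫_ℂ‖ ≤ (K * N) * ‖x‖ * ‖z‖ := by
    intro i x z
    simp only [hS]
    rw [inner_Av]
    calc ‖∑ y ∈ B i, ⟪T y (u (f i y) x), u (f i y) z⟫_ℂ‖
        ≤ ∑ y ∈ B i, ‖⟪T y (u (f i y) x), u (f i y) z⟫_ℂ‖ := norm_sum_le _ _
      _ ≤ ∑ y ∈ B i, K * (‖u (f i y) x‖ * ‖u (f i y) z‖) := by
          refine Finset.sum_le_sum fun y _ => ?_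
          refine (norm_inner_le_norm _ _).trans ?_
          rw [← mul_assoc]
          refine mul_le_mul_of_nonneg_right ?_ (norm_nonneg _)
          exact ((T y).le_opNorm _).trans (mul_le_mul_of_nonneg_right (hTn y) (norm_nonneg _))
      _ = K * ∑ y ∈ B i, ‖u (f i y) x‖ * ‖u (f i y) z‖ := (Finset.mul_sum _ _ _).symm
      _ ≤ K * (√(∑ y ∈ B i, ‖u (f i y) x‖ ^ 2) * √(∑ y ∈ B i, ‖u (f i y) z‖ ^ 2)) := by
          refine mul_le_mul_of_nonneg_left ?_ hK.le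
          exact Real.sum_mul_le_sqrt_mul_sqrt _ _ _
      _ ≤ K * (√(N * ‖x‖ ^ 2) * √(N * ‖z‖ ^ 2)) := by
          refine mul_le_mul_of_nonneg_left ?_ hK.le
          exact mul_le_mul (Real.sqrt_le_sqrt (hN i x)) (Real.sqrt_le_sqrt (hN i z))
            (Real.sqrt_nonneg _) (Real.sqrt_nonneg _)
      _ = (K * N) * ‖x‖ * ‖z‖ := by
          rw [Real.sqrt_mul hN0, Real.sqrt_mul hN0, Real.sqrt_sq (norm_nonneg _),
            Real.sqrt_sq (norm_nonneg _)]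
          have h := Real.mul_self_sqrt hN0
          calc K * (√N * ‖x‖ * (√N * ‖z‖)) = K * (√N * √N) * ‖x‖ * ‖z‖ := by ring
            _ = _ := by rw [h]
  obtain ⟨T', hT'⟩ := exists_ulim U S (K * N) hSb
  have hSsa : ∀ i, IsSelfAdjoint (S i) := fun i => Av_sa u T hTs (B i) (f i)
  have hT's : IsSelfAdjoint T' := by
    rw [ContinuousLinearMap.isSelfAdjoint_iff_isSymmetric]
    intro x y
    change ⟪T' x, y⟫_ℂ = ⟪x, T' y⟫_ℂ
    refine tendsto_nhds_unique (hT' x y) ?_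
    have h1 : Tendsto (fun i => conj ⟪S i y, x⟫_ℂ) U (𝓝 (conj ⟪T' y, x⟫_ℂ)) :=
      (Complex.continuous_conj.tendsto _).comp (hT' y x)
    rw [inner_conj_symm] at h1
    refine h1.congr fun i => ?_
    have := (ContinuousLinearMap.isSelfAdjoint_iff_isSymmetric.1 (hSsa i)) x y
    change ⟪S i x, y⟫_ℂ = ⟪x, S i y⟫_ℂ at this
    rw [this, inner_conj_symm]
  have hlow : ∀ x, (k * (k / K)) * ‖x‖ ^ 2 ≤ (⟪T' x, x⟫_ℂ).re := by
    intro x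
    refine ge_of_tendsto ((Complex.continuous_re.tendsto _).comp (hT' x x))
      (Filter.Eventually.of_forall fun i => ?_)
    simp only [Function.comp, hS]
    rw [inner_Av, Complex.re_sum]
    have h1 := sumsq_low u (hTA y₀) (hTl y₀) (hTn y₀) (B i) (f i) (hone i) x
    calc (k * (k / K)) * ‖x‖ ^ 2 = k * ((k * ‖x‖ ^ 2) / K) := by ring
      _ ≤ k * ∑ y ∈ B i, ‖u (f i y) x‖ ^ 2 := by
          refine mul_le_mul_of_nonneg_left ?_ hk.le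
          rw [div_le_iff₀ hK]
          linarith [h1]
      _ = ∑ y ∈ B i, k * ‖u (f i y) x‖ ^ 2 := Finset.mul_sum _ _ _
      _ ≤ _ := Finset.sum_le_sum fun y _ => hTl y _
  have hup : ∀ x, (⟪T' x, x⟫_ℂ).re ≤ ‖T'‖ * ‖x‖ ^ 2 := by
    intro x
    calc (⟪T' x, x⟫_ℂ).re ≤ ‖⟪T' x, x⟫_ℂ‖ := Complex.re_le_norm _
      _ ≤ ‖T' x‖ * ‖x‖ := norm_inner_le_norm _ _
      _ ≤ (‖T'‖ * ‖x‖) * ‖x‖ := mul_le_mul_of_nonneg_right (T'.le_opNorm x) (norm_nonneg _)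
      _ = _ := by ring
  have hTA' : ∀ a, T' * u (star a) = star (u a) * T' := by
    intro a
    ext x
    refine ext_inner_right ℂ fun z => ?_
    change ⟪T' (u (star a) x), z⟫_ℂ = ⟪(star (u a)) (T' x), z⟫_ℂ
    rw [ContinuousLinearMap.star_eq_adjoint, ContinuousLinearMap.adjoint_inner_left]
    refine tendsto_nhds_unique (hT' _ _) ((hT' x (u a z)).congr fun i => ?_)
    have h1 := congrArg (fun F : H →L[ℂ] H => F x) (Av_comm u T hTA (B i) (f i) (hf2 i) a)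
    change S i (u (star a) x) = (star (u a)) (S i x) at h1
    rw [h1, ContinuousLinearMap.star_eq_adjoint, ContinuousLinearMap.adjoint_inner_left]
  have hTG' : ∀ s : G, star ((π s : (H →L[ℂ] H)ˣ) : H →L[ℂ] H) * T' * π s = T' := by
    intro s
    set p : H →L[ℂ] H := ((π s : (H →L[ℂ] H)ˣ) : H →L[ℂ] H) with hp
    have hz : ∀ x, ⟪T' (p x), p x⟫_ℂ - ⟪T' x, x⟫_ℂ = 0 := by
      intro x
      refine tendsto_nhds_unique ((hT' (p x) (p x)).sub (hT' x x)) ?_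
      set C : ℝ := K * (K * cu / k * (1 / 2 + 2 * ‖(1 : A)‖)) with hC
      have hlim : Tendsto (fun i : Finset G × ℕ => C * (1 / ((i.2 : ℝ) + 1)) * ‖x‖ ^ 2) U (𝓝 0) := by
        have h0 : Tendsto (fun i : Finset G × ℕ => (1 / ((i.2 : ℝ) + 1))) atTop (𝓝 0) := by
          rw [← prod_atTop_atTop_eq]
          exact tendsto_one_div_add_atTop_nhds_zero_nat.comp tendsto_snd
        have h1 := ((h0.mono_left hU).const_mul C).mul_const (‖x‖ ^ 2)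
        simpa using h1
      refine squeeze_zero_norm' ?_ hlim
      have hev : ∀ᶠ i : Finset G × ℕ in (U : Filter (Finset G × ℕ)), s⁻¹ ∈ i.1 := by
        refine hU ?_
        filter_upwards [eventually_ge_atTop (({s⁻¹} : Finset G), 0)] with i hi
        exact hi.1 (Finset.mem_singleton_self _)
      filter_upwards [hev] with i hi
      exact Av_inv α u π hcov hcu hu y₀ T hk hK.le hTl hTn hTA hTG (B i) (f i) (hB i) (hone i) s
        (1 / ((i.2 : ℝ) + 1)) (by positivity) (hf4 i s⁻¹ hi) x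
    have hD : star p * T' * p - T' = 0 := by
      have h1 : ((star p * T' * p - T' : H →L[ℂ] H) : H →ₗ[ℂ] H) = 0 := by
        rw [← inner_map_self_eq_zero]
        intro x
        change ⟪(star p) (T' (p x)) - T' x, x⟫_ℂ = 0
        rw [inner_sub_left, ContinuousLinearMap.star_eq_adjoint,
          ContinuousLinearMap.adjoint_inner_left]
        exact hz x
      ext x
      exact congrArg (fun F : H →ₗ[ℂ] H => F x) h1
    exact sub_eq_zero.1 hD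
  obtain ⟨ξ, hξT, _, _⟩ := exists_root T' hT's (k * (k / K)) ‖T'‖ (by positivity) (norm_nonneg _)
    hlow hup
  refine ⟨ξ, fun x => ?_, fun g => unitary_of_inv ξ (π g) hξT (hTG' g)⟩
  rw [sim_iff, hξT]
  exact hTA' x

end TH27.AA
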