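import Mathlib
import Pool.Agent.TH27.AA.Fin

/-!
From similarities for the stabilisers to one similarity.
-/

set_option autoImplicit false

open scoped InnerProductSpace ComplexConjugate Topology

noncomputable section

namespace TH27.AA

open TH140.KC

variable {H : Type} [NormedAddCommGroup H] [InnerProductSpace ℂ H] [CompleteSpace H]
variable {A : Type} [CStarAlgebra A] {G : Type} [Group G] {Y : Type} [MulAction G Y]

/-- One invertible `ξ`, `‖ξ‖, ‖ξ⁻¹‖ ≤ κ`, turns `u` into a *-homomorphism and all `π(g)`, `g ∈ P`,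
into unitary operators. -/
def SimOn (u : A →ₐ[ℂ] (H →L[ℂ] H)) (π : G →* (H →L[ℂ] H)ˣ) (P : Subgroup G) (κ : ℝ) : Prop :=
  ∃ ξ : (H →L[ℂ] H)ˣ, ‖(ξ : H →L[ℂ] H)‖ ≤ κ ∧ ‖((ξ⁻¹ : (H →L[ℂ] H)ˣ) : H →L[ℂ] H)‖ ≤ κ ∧
    (∀ x : A, (ξ : H →L[ℂ] H) * u (star x) * ((ξ⁻¹ : (H →L[ℂ] H)ˣ) : H →L[ℂ] H)
      = star ((ξ : H →L[ℂ] H) * u x * ((ξ⁻¹ : (H →L[ℂ] H)ˣ) : H →L[ℂ] H))) ∧
    ∀ g ∈ P, (ξ : H →L[ℂ] H) * π g * ((ξ⁻¹ : (H →L[ℂ] H)ˣ) : H →L[ℂ] H)
      ∈ unitary (H →L[ℂ] H)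

/-- orbit representative -/
def rp (G : Type) [Group G] {Y : Type} [MulAction G Y] (y : Y) : Y :=
  Quotient.out (Quotient.mk (MulAction.orbitRel G Y) y)

theorem rp_smul (s : G) (y : Y) : rp G (s • y) = rp G y := by
  unfold rp
  congr 1
  exact Quotient.sound (MulAction.mem_orbit y s)

theorem exists_ga (y : Y) : ∃ g : G, g • rp G y = y := by
  have h : (MulAction.orbitRel G Y).r (rp G y) y := Quotient.mk_out y
  obtain ⟨g, hg⟩ := h
  refine ⟨g⁻¹, ?_⟩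
  change g • y = rp G y at hg
  rw [← hg, inv_smul_smul]

def ga (G : Type) [Group G] {Y : Type} [MulAction G Y] (y : Y) : G :=
  Classical.choose (exists_ga (G := G) y)

theorem ga_smul (y : Y) : ga G y • rp G y = y := Classical.choose_spec (exists_ga (G := G) y)

theorem low_bound (ξ : (H →L[ℂ] H)ˣ) {κ : ℝ}
    (h : ‖((ξ⁻¹ : (H →L[ℂ] H)ˣ) : H →L[ℂ] H)‖ ≤ κ) (x : H) :
    ‖x‖ ≤ κ * ‖(ξ : H →L[ℂ] H) x‖ := by
  have e : ((ξ⁻¹ : (H →L[ℂ] H)ˣ) : H →L[ℂ] H) ((ξ : H →L[ℂ] H) x) = x := by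
    change (((ξ⁻¹ : (H →L[ℂ] H)ˣ) : H →L[ℂ] H) * ξ) x = x
    rw [Units.inv_mul]; rfl
  conv_lhs => rw [← e]
  exact (ContinuousLinearMap.le_opNorm _ _).trans (mul_le_mul_of_nonneg_right h (norm_nonneg _))

/-- from the stabilisers to the group -/
theorem localGlobal (α : G →* (A ≃⋆ₐ[ℂ] A)) (hA : AmenableOver α Y)
    (u : A →ₐ[ℂ] (H →L[ℂ] H)) (π : G →* (H →L[ℂ] H)ˣ)
    (hcov : ∀ g x, ((π g : (H →L[ℂ] H)ˣ) : H →L[ℂ] H) * u x = u (α g x) * π g)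
    (hu : ∃ c : ℝ, ∀ x, ‖u x‖ ≤ c * ‖x‖)
    (hπ : ∃ d : ℝ, ∀ g, ‖((π g : (H →L[ℂ] H)ˣ) : H →L[ℂ] H)‖ ≤ d)
    (hloc : ∃ κ : ℝ, ∀ y : Y, SimOn u π (MulAction.stabilizer G y) κ) :
    ∃ κ : ℝ, SimOn u π ⊤ κ := by
  classical
  obtain ⟨c', hc'⟩ := hu
  obtain ⟨d', hd'⟩ := hπ
  obtain ⟨κ', hκ'⟩ := hloc
  rcases isEmpty_or_nonempty Y with hY | ⟨⟨y₀⟩⟩
  · obtain ⟨f, _, _, h1, _⟩ := hA ∅ 1 one_pos
    rw [finsum_of_isEmpty] at h1
    have h2 : (1 : H →L[ℂ] H) = 0 := by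
      rw [← map_one u, ← h1, map_zero]
    have h3 : ∀ a b : H →L[ℂ] H, a = b := fun a b => by
      rw [← one_mul a, ← one_mul b, h2, zero_mul, zero_mul]
    refine ⟨‖((1 : (H →L[ℂ] H)ˣ) : H →L[ℂ] H)‖, 1, le_rfl, ?_, fun x => h3 _ _, fun g _ => ?_⟩
    · rw [inv_one]
    · rw [h3 ((((1 : (H →L[ℂ] H)ˣ)) : H →L[ℂ] H) * π g * (((1 : (H →L[ℂ] H)ˣ)⁻¹ : (H →L[ℂ] H)ˣ) :
        H →L[ℂ] H)) 1]
      exact one_mem _
  set c : ℝ := max c' 0 with hc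
  set d : ℝ := max d' 1 with hd
  set κ : ℝ := max κ' 1 with hκ
  have hc0 : 0 ≤ c := le_max_right _ _
  have hd1 : 1 ≤ d := le_max_right _ _
  have hκ1 : 1 ≤ κ := le_max_right _ _
  have hdpos : 0 < d := by linarith
  have hκpos : 0 < κ := by linarith
  have hu : ∀ x, ‖u x‖ ≤ c * ‖x‖ := fun x =>
    (hc' x).trans (mul_le_mul_of_nonneg_right (le_max_left _ _) (norm_nonneg _))
  have hπ : ∀ g, ‖((π g : (H →L[ℂ] H)ˣ) : H →L[ℂ] H)‖ ≤ d := fun g => (hd' g).trans (le_max_left _ _)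
  choose ξ hξ1 hξ2 hξ3 hξ4 using hκ'
  have hξ1 : ∀ y, ‖(ξ y : H →L[ℂ] H)‖ ≤ κ := fun y => (hξ1 y).trans (le_max_left _ _)
  have hξ2 : ∀ y, ‖(((ξ y)⁻¹ : (H →L[ℂ] H)ˣ) : H →L[ℂ] H)‖ ≤ κ := fun y =>
    (hξ2 y).trans (le_max_left _ _)
  let T0 : Y → (H →L[ℂ] H) := fun y => star (ξ y : H →L[ℂ] H) * ξ y
  let pg : Y → (H →L[ℂ] H) := fun y => ((π (ga G y)⁻¹ : (H →L[ℂ] H)ˣ) : H →L[ℂ] H)
  let T : Y → (H →L[ℂ] H) := fun y => star (pg y) * T0 (rp G y) * pg y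
  have hTin : ∀ y x, (⟪T y x, x⟫_ℂ).re = ‖(ξ (rp G y) : H →L[ℂ] H) (pg y x)‖ ^ 2 := by
    intro y x
    have e : T y = star ((ξ (rp G y) : H →L[ℂ] H) * pg y) * ((ξ (rp G y) : H →L[ℂ] H) * pg y) := by
      simp only [T, T0, star_mul, mul_assoc]
    rw [e, inner_star_mul, re_inner_self]
    rfl
  have hTs : ∀ y, IsSelfAdjoint (T y) := by
    intro y
    simp only [IsSelfAdjoint, T, T0, star_mul, star_star, mul_assoc]
  have hTl : ∀ y x, ((κ * d) ^ 2)⁻¹ * ‖x‖ ^ 2 ≤ (⟪T y x, x⟫_ℂ).re := by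
    intro y x
    rw [hTin, inv_mul_le_iff₀ (by positivity)]
    have n1 : ‖x‖ ≤ d * ‖pg y x‖ := by
      refine low_bound (π (ga G y)⁻¹) ?_ x
      rw [map_inv, inv_inv]
      exact hπ _
    have n2 : ‖pg y x‖ ≤ κ * ‖(ξ (rp G y) : H →L[ℂ] H) (pg y x)‖ := low_bound _ (hξ2 _) _
    calc ‖x‖ ^ 2 ≤ (d * (κ * ‖(ξ (rp G y) : H →L[ℂ] H) (pg y x)‖)) ^ 2 := by
          refine pow_le_pow_left₀ (norm_nonneg _) (n1.trans ?_) 2
          exact mul_le_mul_of_nonneg_left n2 hdpos.le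
      _ = _ := by ring
  have hTn : ∀ y, ‖T y‖ ≤ d * (κ * κ) * d := by
    intro y
    refine (norm_mul_le _ _).trans (mul_le_mul ((norm_mul_le _ _).trans ?_) (hπ _)
      (norm_nonneg _) (by positivity))
    rw [norm_star]
    refine mul_le_mul (hπ _) ((norm_mul_le _ _).trans ?_) (norm_nonneg _) hdpos.le
    rw [norm_star]
    exact mul_le_mul (hξ1 _) (hξ1 _) (norm_nonneg _) hκpos.le
  have hT0A : ∀ y a, T0 y * u (star a) = star (u a) * T0 y := fun y a =>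
    (sim_iff (ξ y) (u a) (u (star a))).1 (hξ3 y a)
  have hTA : ∀ y a, T y * u (star a) = star (u a) * T y := by
    intro y a
    set g : G := (ga G y)⁻¹ with hg
    have c1 : pg y * u (star a) = u (star (α g a)) * pg y := by
      have := hcov g (star a)
      rwa [map_star (α g)] at this
    have c2 : pg y * u a = u (α g a) * pg y := hcov g a
    have c3 := hT0A (rp G y) (α g a)
    calc T y * u (star a) = star (pg y) * (T0 (rp G y) * (pg y * u (star a))) := by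
          simp only [T, mul_assoc]
      _ = star (pg y) * (T0 (rp G y) * u (star (α g a)) * pg y) := by
          rw [c1, ← mul_assoc (T0 (rp G y))]
      _ = star (u (α g a) * pg y) * (T0 (rp G y) * pg y) := by
          rw [c3, star_mul]
          simp only [mul_assoc]
      _ = star (u a) * T y := by
          rw [← c2, star_mul]
          simp only [T, mul_assoc]
  have hTG : ∀ (s : G) y, star ((π s : (H →L[ℂ] H)ˣ) : H →L[ℂ] H) * T (s • y) * π s = T y := by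
    intro s y
    have hr : rp G (s • y) = rp G y := rp_smul s y
    set z := rp G y with hz
    set h : G := (ga G (s • y))⁻¹ * s * ga G y with hh
    have hmem : h ∈ MulAction.stabilizer G z := by
      rw [MulAction.mem_stabilizer_iff, hh, mul_smul, mul_smul]
      have e1 : ga G y • z = y := ga_smul y
      rw [e1, inv_smul_eq_iff]
      have e2 := ga_smul (G := G) (s • y)
      rw [hr] at e2
      exact e2.symm
    have e3 : pg (s • y) * ((π s : (H →L[ℂ] H)ˣ) : H →L[ℂ] H)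
        = ((π h : (H →L[ℂ] H)ˣ) : H →L[ℂ] H) * pg y := by
      simp only [pg]
      rw [← Units.val_mul, ← Units.val_mul, ← map_mul, ← map_mul, hh]
      congr 2
      group
    have e4 : star ((π h : (H →L[ℂ] H)ˣ) : H →L[ℂ] H) * T0 z * π h = T0 z :=
      inv_of_unitary (ξ z) (π h) (hξ4 z h hmem)
    calc star ((π s : (H →L[ℂ] H)ˣ) : H →L[ℂ] H) * T (s • y) * π s
        = star (pg (s • y) * ((π s : (H →L[ℂ] H)ˣ) : H →L[ℂ] H)) * T0 z *
          (pg (s • y) * ((π s : (H →L[ℂ] H)ˣ) : H →L[ℂ] H)) := by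
          simp only [T, hr, star_mul, mul_assoc]
      _ = star (pg y) * (star ((π h : (H →L[ℂ] H)ˣ) : H →L[ℂ] H) * T0 z * π h) * pg y := by
          rw [e3]
          simp only [star_mul, mul_assoc]
      _ = T y := by rw [e4]
  obtain ⟨ζ, hζ1, hζ2⟩ := core α hA u π hcov hc0 hu y₀ T (k := ((κ * d) ^ 2)⁻¹)
    (K := d * (κ * κ) * d) (by positivity) (by positivity) hTs hTl hTn hTA hTG
  exact ⟨max ‖(ζ : H →L[ℂ] H)‖ ‖((ζ⁻¹ : (H →L[ℂ] H)ˣ) : H →L[ℂ] H)‖, ζ, le_max_left _ _,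
    le_max_right _ _, hζ1, fun g _ => hζ2 g⟩

end TH27.AA
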