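import Mathlib
import Pool.Agent.TH27.AA.Fam
import Pool.Agent.Results.MP_9dc4d2_an.AllSimilar

/-!
Amenable stabilisers, and groups acting amenably on sets.
-/

set_option autoImplicit false

open scoped InnerProductSpace ComplexConjugate Topology

noncomputable section

namespace TH27.AA

open TH140.KC

variable {H : Type} [NormedAddCommGroup H] [InnerProductSpace ℂ H] [CompleteSpace H]
variable {A : Type} [CStarAlgebra A] {G : Type} [Group G] {Y : Type} [MulAction G Y]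

/-- amenable stabilisers -/
theorem amenableStab (α : G →* (A ≃⋆ₐ[ℂ] A)) (hA : AmenableOver α Y)
    (hst : ∀ y : Y, Amenable (MulAction.stabilizer G y))
    (u : A →ₐ[ℂ] (H →L[ℂ] H)) (π : G →* (H →L[ℂ] H)ˣ)
    (hcov : ∀ g x, ((π g : (H →L[ℂ] H)ˣ) : H →L[ℂ] H) * u x = u (α g x) * π g)
    (hu : ∃ c : ℝ, ∀ x, ‖u x‖ ≤ c * ‖x‖)
    (hπ : ∃ d : ℝ, ∀ g, ‖((π g : (H →L[ℂ] H)ˣ) : H →L[ℂ] H)‖ ≤ d) :
    ∃ κ : ℝ, SimOn u π ⊤ κ := by
  refine localGlobal α hA u π hcov hu hπ ?_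
  obtain ⟨c', hc'⟩ := hu
  obtain ⟨d', hd'⟩ := hπ
  set c : ℝ := max c' 1 with hc
  set d : ℝ := max d' 1 with hd
  have hc1 : 1 ≤ c := le_max_right _ _
  have hd1 : 1 ≤ d := le_max_right _ _
  have hu : ∀ x, ‖u x‖ ≤ c * ‖x‖ := fun x =>
    (hc' x).trans (mul_le_mul_of_nonneg_right (le_max_left _ _) (norm_nonneg _))
  have hπ : ∀ g, ‖((π g : (H →L[ℂ] H)ˣ) : H →L[ℂ] H)‖ ≤ d := fun g => (hd' g).trans (le_max_left _ _)
  obtain ⟨ξ₀, h1, h2, h3⟩ :=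
    Pool.Agent.Results.MP_9dc4d2_an.AllSimilar.result A H u c hc1 hu
  have hKpos : (0 : ℝ) < 864 * (2 * c) ^ 29 := by positivity
  refine ⟨√(864 * (2 * c) ^ 29 * d ^ 2), fun y => ?_⟩
  obtain ⟨ξ, e1, e2, e3, e4⟩ := simultaneous (hst y) (fun x => u x) (864 * (2 * c) ^ 29) d hKpos
    hd1 ξ₀ h1 h2 h3 (fun g => π (g : G)) (fun g => hπ g)
    (fun g => by rw [← map_inv]; exact hπ _) (fun g x => α (g : G) x)
    (fun g x => map_star (α (g : G)) x) (fun g x => hcov (g : G) x) (fun _ _ => 1)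
    (fun _ _ => by rw [star_one, one_mul, mul_one])
    (fun g h => by rw [one_mul, ← Units.val_mul, ← map_mul]; rfl)
  refine ⟨ξ, ?_, ?_, e3, fun g hg => e4 ⟨g, hg⟩⟩
  · exact Real.le_sqrt_of_sq_le e1
  · exact Real.le_sqrt_of_sq_le e2

/-- All uniformly bounded representations of `G` on Hilbert spaces are unitarizable. -/
def UnitarizableGroup (G : Type) [Group G] : Prop :=
  ∀ (H : Type) [NormedAddCommGroup H] [InnerProductSpace ℂ H] [CompleteSpace H]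
    (π : G →* (H →L[ℂ] H)ˣ), (∃ d : ℝ, ∀ g, ‖((π g : (H →L[ℂ] H)ˣ) : H →L[ℂ] H)‖ ≤ d) →
    ∃ ξ : (H →L[ℂ] H)ˣ, ∀ g, (ξ : H →L[ℂ] H) * π g * ((ξ⁻¹ : (H →L[ℂ] H)ˣ) : H →L[ℂ] H)
      ∈ unitary (H →L[ℂ] H)

/-- The action of `G` on the set `Y` is amenable. -/
def AmenableAction (G Y : Type) [Group G] [MulAction G Y] : Prop :=
  ∀ (F : Finset G) (ε : ℝ), 0 < ε → ∃ f : Y → ℝ, (Function.support f).Finite ∧
    ∑ᶠ y, f y ^ 2 = 1 ∧ ∀ s ∈ F, ∑ᶠ y, (f (s⁻¹ • y) - f y) ^ 2 ≤ ε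

theorem ofReal_finsum (f : Y → ℝ) (hf : (Function.support f).Finite) :
    ((∑ᶠ y, f y : ℝ) : ℂ) = ∑ᶠ y, ((f y : ℝ) : ℂ) :=
  Complex.ofRealHom.toAddMonoidHom.map_finsum hf

theorem AmenableAction.over (h : AmenableAction G Y) :
    AmenableOver (1 : G →* (ℂ ≃⋆ₐ[ℂ] ℂ)) Y := by
  intro F ε hε
  obtain ⟨f, h1, h2, h3⟩ := h F ε hε
  refine ⟨fun y => (f y : ℂ), ?_, fun y a => mul_comm _ _, ?_, fun s hs => ?_⟩
  · refine h1.subset fun y hy => ?_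
    simpa using hy
  · have e : ∀ y, star ((f y : ℝ) : ℂ) * ((f y : ℝ) : ℂ) = ((f y ^ 2 : ℝ) : ℂ) := by
      intro y
      rw [Complex.star_def, Complex.conj_ofReal]
      push_cast
      ring
    rw [finsum_congr e, ← ofReal_finsum, h2, Complex.ofReal_one]
    refine h1.subset fun y hy => ?_
    simpa using hy
  · have e : ∀ y, star ((1 : G →* (ℂ ≃⋆ₐ[ℂ] ℂ)) s ((f (s⁻¹ • y) : ℝ) : ℂ) - ((f y : ℝ) : ℂ)) *
        ((1 : G →* (ℂ ≃⋆ₐ[ℂ] ℂ)) s ((f (s⁻¹ • y) : ℝ) : ℂ) - ((f y : ℝ) : ℂ))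
        = (((f (s⁻¹ • y) - f y) ^ 2 : ℝ) : ℂ) := by
      intro y
      have e1 : (1 : G →* (ℂ ≃⋆ₐ[ℂ] ℂ)) s ((f (s⁻¹ • y) : ℝ) : ℂ) = ((f (s⁻¹ • y) : ℝ) : ℂ) := rfl
      rw [e1, ← Complex.ofReal_sub, Complex.star_def, Complex.conj_ofReal]
      push_cast
      ring
    rw [finsum_congr e, ← ofReal_finsum, Complex.norm_real, Real.norm_of_nonneg]
    · exact h3 s hs
    · exact finsum_nonneg fun y => sq_nonneg _
    · have h4 : (Function.support fun y => f (s⁻¹ • y)).Finite := by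
        have := h1.preimage (f := fun y : Y => s⁻¹ • y) (MulAction.injective s⁻¹).injOn
        exact this
      refine (h4.union h1).subset fun y hy => ?_
      by_contra hcon
      rw [Set.mem_union, not_or, Function.mem_support, Function.mem_support, not_not,
        not_not] at hcon
      apply hy
      simp only [hcon.1, hcon.2]
      norm_num

/-- groups acting amenably with finitely many orbits and unitarizable stabilisers -/
theorem unitarizable_of_action (hA : AmenableAction G Y)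
    [Finite (MulAction.orbitRel.Quotient G Y)]
    (hst : ∀ y : Y, UnitarizableGroup (MulAction.stabilizer G y)) : UnitarizableGroup G := by
  classical
  intro H _ _ _ π hπ
  obtain ⟨d', hd'⟩ := hπ
  set d : ℝ := max d' 1 with hd
  have hd1 : 1 ≤ d := le_max_right _ _
  have hπ : ∀ g, ‖((π g : (H →L[ℂ] H)ˣ) : H →L[ℂ] H)‖ ≤ d := fun g => (hd' g).trans (le_max_left _ _)
  have hloc : ∀ z : Y, ∃ ξ : (H →L[ℂ] H)ˣ, ∀ g ∈ MulAction.stabilizer G z,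
      (ξ : H →L[ℂ] H) * π g * ((ξ⁻¹ : (H →L[ℂ] H)ˣ) : H →L[ℂ] H) ∈ unitary (H →L[ℂ] H) := by
    intro z
    obtain ⟨ξ, hξ⟩ := hst z H (π.comp (MulAction.stabilizer G z).subtype)
      ⟨d, fun g => hπ (g : G)⟩
    exact ⟨ξ, fun g hg => hξ ⟨g, hg⟩⟩
  choose ξ hξ using hloc
  -- a bound over the orbit representatives
  let q : MulAction.orbitRel.Quotient G Y → Y := fun ω => Quotient.out ω
  obtain ⟨κ₀, hκ₀⟩ : ∃ κ₀ : ℝ, ∀ ω : MulAction.orbitRel.Quotient G Y,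
      ‖(ξ (q ω) : H →L[ℂ] H)‖ ≤ κ₀ ∧ ‖(((ξ (q ω))⁻¹ : (H →L[ℂ] H)ˣ) : H →L[ℂ] H)‖ ≤ κ₀ := by
    obtain ⟨a, ha⟩ := (Set.finite_range fun ω : MulAction.orbitRel.Quotient G Y =>
      ‖(ξ (q ω) : H →L[ℂ] H)‖).bddAbove
    obtain ⟨b, hb⟩ := (Set.finite_range fun ω : MulAction.orbitRel.Quotient G Y =>
      ‖(((ξ (q ω))⁻¹ : (H →L[ℂ] H)ˣ) : H →L[ℂ] H)‖).bddAbove
    exact ⟨max a b, fun ω => ⟨(ha ⟨ω, rfl⟩).trans (le_max_left _ _),
      (hb ⟨ω, rfl⟩).trans (le_max_right _ _)⟩⟩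
  let u : ℂ →ₐ[ℂ] (H →L[ℂ] H) := Algebra.ofId ℂ (H →L[ℂ] H)
  have hu1 : ∀ x : ℂ, u x = x • (1 : H →L[ℂ] H) := fun x => Algebra.algebraMap_eq_smul_one x
  have hcov : ∀ (g : G) (x : ℂ), ((π g : (H →L[ℂ] H)ˣ) : H →L[ℂ] H) * u x
      = u ((1 : G →* (ℂ ≃⋆ₐ[ℂ] ℂ)) g x) * π g := by
    intro g x
    have e1 : (1 : G →* (ℂ ≃⋆ₐ[ℂ] ℂ)) g x = x := rfl
    rw [e1, hu1, mul_smul_comm, smul_mul_assoc, mul_one, one_mul]
  have hsc : ∀ (ζ : (H →L[ℂ] H)ˣ) (x : ℂ),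
      (ζ : H →L[ℂ] H) * u (star x) * ((ζ⁻¹ : (H →L[ℂ] H)ˣ) : H →L[ℂ] H)
        = star ((ζ : H →L[ℂ] H) * u x * ((ζ⁻¹ : (H →L[ℂ] H)ˣ) : H →L[ℂ] H)) := by
    intro ζ x
    rw [hu1, hu1, mul_smul_comm, mul_smul_comm, smul_mul_assoc, smul_mul_assoc, mul_one,
      Units.mul_inv, star_smul, star_one]
  obtain ⟨κ, ζ, _, _, _, hζ⟩ := localGlobal (1 : G →* (ℂ ≃⋆ₐ[ℂ] ℂ)) hA.over u π hcov
    ⟨‖(1 : H →L[ℂ] H)‖, fun x => by rw [hu1, norm_smul, mul_comm]⟩ ⟨d, hπ⟩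
    ⟨κ₀ * d, fun y => by
      have hq : rp G y = q (Quotient.mk (MulAction.orbitRel G Y) y) := rfl
      obtain ⟨hb1, hb2⟩ := hκ₀ (Quotient.mk (MulAction.orbitRel G Y) y)
      rw [← hq] at hb1 hb2
      have hκ0 : 0 ≤ κ₀ := (norm_nonneg _).trans hb1
      set z := rp G y with hz
      set γ : G := ga G y with hγ
      have hγz : γ • z = y := ga_smul y
      refine ⟨ξ z * π γ⁻¹, ?_, ?_, hsc _, fun g hg => ?_⟩
      · rw [Units.val_mul]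
        exact (norm_mul_le _ _).trans (mul_le_mul hb1 (hπ _) (norm_nonneg _) hκ0)
      · rw [mul_inv_rev, Units.val_mul, map_inv, inv_inv, mul_comm κ₀ d]
        exact (norm_mul_le _ _).trans (mul_le_mul (hπ _) hb2 (norm_nonneg _) (by linarith))
      · have hmem : γ⁻¹ * g * γ ∈ MulAction.stabilizer G z := by
          rw [MulAction.mem_stabilizer_iff, mul_smul, mul_smul, hγz,
            MulAction.mem_stabilizer_iff.1 hg, inv_smul_eq_iff, hγz]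
        have e1 := hξ z _ hmem
        have e2 : ((ξ z * π γ⁻¹ : (H →L[ℂ] H)ˣ) : H →L[ℂ] H) * π g *
            (((ξ z * π γ⁻¹)⁻¹ : (H →L[ℂ] H)ˣ) : H →L[ℂ] H)
            = (ξ z : H →L[ℂ] H) * π (γ⁻¹ * g * γ) *
              (((ξ z)⁻¹ : (H →L[ℂ] H)ˣ) : H →L[ℂ] H) := by
          rw [← Units.val_mul, ← Units.val_mul, ← Units.val_mul, ← Units.val_mul]
          congr 1
          rw [map_mul, map_mul, map_inv]
          group
        rw [e2]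
        exact e1⟩
  exact ⟨ζ, fun g => hζ g (Subgroup.mem_top g)⟩

end TH27.AA
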