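import Mathlib
import Pool.Agent.TH27.AA.Fam

/-!
Bounded covariant pairs of arbitrary groups when the commutant of the algebra has a cyclic
invariant trace vector: the minimal point of the convex hull of `π(g)* π(g)`.
-/

set_option autoImplicit false

open scoped InnerProductSpace ComplexConjugate Topology
open Filter

noncomputable section

namespace TH27.AA

open TH140.KC

variable {H : Type} [NormedAddCommGroup H] [InnerProductSpace ℂ H] [CompleteSpace H]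
variable {A : Type} [CStarAlgebra A] {G : Type} [Group G]

section

variable (u : A →ₐ[ℂ] (H →L[ℂ] H)) (π : G →* (H →L[ℂ] H)ˣ)

/-- `m` commutes with `u(A)` -/
def Com (m : H →L[ℂ] H) : Prop := ∀ a, m * u a = u a * m

theorem Com.mul {u : A →ₐ[ℂ] (H →L[ℂ] H)} {m n : H →L[ℂ] H} (hm : Com u m) (hn : Com u n) :
    Com u (m * n) := fun a => by rw [mul_assoc, hn a, ← mul_assoc, hm a, mul_assoc]

theorem Com.add {u : A →ₐ[ℂ] (H →L[ℂ] H)} {m n : H →L[ℂ] H} (hm : Com u m) (hn : Com u n) :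
    Com u (m + n) := fun a => by rw [add_mul, mul_add, hm a, hn a]

theorem Com.sub {u : A →ₐ[ℂ] (H →L[ℂ] H)} {m n : H →L[ℂ] H} (hm : Com u m) (hn : Com u n) :
    Com u (m - n) := fun a => by rw [sub_mul, mul_sub, hm a, hn a]

theorem Com.smul {u : A →ₐ[ℂ] (H →L[ℂ] H)} (c : ℝ) {m : H →L[ℂ] H} (hm : Com u m) :
    Com u (c • m) := fun a => by rw [smul_mul_assoc, mul_smul_comm, hm a]

theorem Com.star {u : A →ₐ[ℂ] (H →L[ℂ] H)} (hus : ∀ a, u (star a) = star (u a))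
    {m : H →L[ℂ] H} (hm : Com u m) : Com u (star m) := fun a => by
  have h := congrArg Star.star (hm (Star.star a))
  rw [star_mul, star_mul, hus, star_star] at h
  exact h.symm

/-- `R_g(m) = π(g)* m π(g)` -/
def Rg (g : G) (m : H →L[ℂ] H) : H →L[ℂ] H :=
  star ((π g : (H →L[ℂ] H)ˣ) : H →L[ℂ] H) * m * π g

theorem Rg_Rg (g h : G) (m : H →L[ℂ] H) : Rg π h (Rg π g m) = Rg π (g * h) m := by
  simp only [Rg, map_mul, Units.val_mul, star_mul, mul_assoc]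

theorem Rg_one (m : H →L[ℂ] H) : Rg π 1 m = m := by
  simp only [Rg, map_one, Units.val_one, star_one, one_mul, mul_one]

theorem Rg_inv (g : G) (m : H →L[ℂ] H) : Rg π g⁻¹ (Rg π g m) = m := by
  rw [Rg_Rg, mul_inv_cancel, Rg_one]

theorem Rg_add (g : G) (m n : H →L[ℂ] H) : Rg π g (m + n) = Rg π g m + Rg π g n := by
  simp only [Rg, mul_add, add_mul]

theorem Rg_sub (g : G) (m n : H →L[ℂ] H) : Rg π g (m - n) = Rg π g m - Rg π g n := by
  simp only [Rg, mul_sub, sub_mul]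

theorem Rg_smul (g : G) (c : ℝ) (m : H →L[ℂ] H) : Rg π g (c • m) = c • Rg π g m := by
  simp only [Rg, mul_smul_comm, smul_mul_assoc]

variable {α : G →* (A ≃⋆ₐ[ℂ] A)}
  (hcov : ∀ g x, ((π g : (H →L[ℂ] H)ˣ) : H →L[ℂ] H) * u x = u (α g x) * π g)
  (hus : ∀ a, u (star a) = star (u a))

include hcov hus

theorem star_cov (g : G) (a : A) :
    star ((π g : (H →L[ℂ] H)ˣ) : H →L[ℂ] H) * u (α g a)
      = u a * star ((π g : (H →L[ℂ] H)ˣ) : H →L[ℂ] H) := by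
  have h := congrArg star (hcov g (star a))
  rw [star_mul, star_mul, ← hus, star_star, ← hus, map_star (α g), star_star] at h
  exact h.symm

theorem Rg_com (g : G) {m : H →L[ℂ] H} (hm : Com u m) : Com u (Rg π g m) := by
  intro a
  calc Rg π g m * u a = star ((π g : (H →L[ℂ] H)ˣ) : H →L[ℂ] H) * m * (π g * u a) := by
        simp only [Rg, mul_assoc]
    _ = star ((π g : (H →L[ℂ] H)ˣ) : H →L[ℂ] H) * (m * u (α g a)) * π g := by
        rw [hcov]; simp only [mul_assoc]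
    _ = (star ((π g : (H →L[ℂ] H)ˣ) : H →L[ℂ] H) * u (α g a)) * m * π g := by
        rw [hm]; simp only [mul_assoc]
    _ = u a * Rg π g m := by
        rw [star_cov u π hcov hus g a]
        simp only [Rg, mul_assoc]

/-- conjugation by `π(g)` preserves the commutant -/
theorem conj_com (g : G) {m : H →L[ℂ] H} (hm : Com u m) :
    Com u (((π g : (H →L[ℂ] H)ˣ) : H →L[ℂ] H) * m *
      (((π g)⁻¹ : (H →L[ℂ] H)ˣ) : H →L[ℂ] H)) := by
  have key : ∀ (s : G) (a : A), u a * ((π s : (H →L[ℂ] H)ˣ) : H →L[ℂ] H)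
      = ((π s : (H →L[ℂ] H)ˣ) : H →L[ℂ] H) * u (α s⁻¹ a) := by
    intro s a
    have h := hcov s (α s⁻¹ a)
    have e : α s (α s⁻¹ a) = a := by
      rw [← StarAlgEquiv.mul_apply, ← map_mul, mul_inv_cancel, map_one]
      rfl
    rw [e] at h
    exact h.symm
  intro a
  have h1 : (((π g)⁻¹ : (H →L[ℂ] H)ˣ) : H →L[ℂ] H) * u a
      = u (α g⁻¹ a) * (((π g)⁻¹ : (H →L[ℂ] H)ˣ) : H →L[ℂ] H) := by
    rw [← map_inv]
    exact hcov g⁻¹ a
  rw [mul_assoc, h1, ← mul_assoc, mul_assoc _ m, hm, ← mul_assoc, ← key g a]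
  simp only [mul_assoc]

theorem pp_com (g : G) :
    Com u (((π g : (H →L[ℂ] H)ˣ) : H →L[ℂ] H) * star ((π g : (H →L[ℂ] H)ˣ) : H →L[ℂ] H)) := by
  intro b
  have e : α g (α g⁻¹ b) = b := by
    rw [← StarAlgEquiv.mul_apply, ← map_mul, mul_inv_cancel, map_one]
    rfl
  have h1 := star_cov u π hcov hus g (α g⁻¹ b)
  have h2 := hcov g (α g⁻¹ b)
  rw [e] at h1 h2
  rw [mul_assoc, h1, ← mul_assoc, h2, mul_assoc]

variable {I : Type} {ξ : I → H} {d : ℝ} (hs : Summable fun i => ‖ξ i‖ ^ 2)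

omit hcov hus

/-- the functional `∑ ⟨m ξ_i, ξ_i⟩` -/
def tr (ξ : I → H) (m : H →L[ℂ] H) : ℂ := ∑' i, ⟪m (ξ i), ξ i⟫_ℂ

/-- `∑ ‖m ξ_i‖²` -/
def N2 (ξ : I → H) (m : H →L[ℂ] H) : ℝ := ∑' i, ‖m (ξ i)‖ ^ 2

include hs

theorem sm1 (m : H →L[ℂ] H) : Summable fun i => ⟪m (ξ i), ξ i⟫_ℂ := by
  refine Summable.of_norm_bounded (hs.mul_left ‖m‖) fun i => ?_
  refine (norm_inner_le_norm _ _).trans ?_
  calc ‖m (ξ i)‖ * ‖ξ i‖ ≤ (‖m‖ * ‖ξ i‖) * ‖ξ i‖ :=
        mul_le_mul_of_nonneg_right (m.le_opNorm _) (norm_nonneg _)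
    _ = _ := by ring

theorem sm2 (m : H →L[ℂ] H) : Summable fun i => ‖m (ξ i)‖ ^ 2 := by
  refine Summable.of_nonneg_of_le (fun i => by positivity) (fun i => ?_) (hs.mul_left (‖m‖ ^ 2))
  calc ‖m (ξ i)‖ ^ 2 ≤ (‖m‖ * ‖ξ i‖) ^ 2 :=
        pow_le_pow_left₀ (norm_nonneg _) (m.le_opNorm _) 2
    _ = _ := by ring

theorem N2_mul_le (s m : H →L[ℂ] H) : N2 ξ (s * m) ≤ ‖s‖ ^ 2 * N2 ξ m := by
  unfold N2
  rw [← tsum_mul_left]
  refine Summable.tsum_le_tsum (fun i => ?_) (sm2 hs (s * m)) ((sm2 hs m).mul_left _)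
  calc ‖(s * m) (ξ i)‖ ^ 2 ≤ (‖s‖ * ‖m (ξ i)‖) ^ 2 :=
        pow_le_pow_left₀ (norm_nonneg _) (s.le_opNorm _) 2
    _ = _ := by ring

omit hs in
theorem N2_nonneg (m : H →L[ℂ] H) : 0 ≤ N2 ξ m := tsum_nonneg fun i => by positivity

theorem N2_par (x y : H →L[ℂ] H) :
    N2 ξ ((1 / 2 : ℝ) • (x + y)) = (N2 ξ x + N2 ξ y) / 2 - N2 ξ (x - y) / 4 := by
  unfold N2
  rw [← Summable.tsum_add (sm2 hs x) (sm2 hs y), ← tsum_div_const, ← tsum_div_const,
    ← Summable.tsum_sub (((sm2 hs x).add (sm2 hs y)).div_const 2) ((sm2 hs (x - y)).div_const 4)]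
  refine tsum_congr fun i => ?_
  have e1 : ((1 / 2 : ℝ) • (x + y)) (ξ i) = (1 / 2 : ℝ) • (x (ξ i) + y (ξ i)) := rfl
  have e2 : (x - y) (ξ i) = x (ξ i) - y (ξ i) := rfl
  have e3 := parallelogram_law_with_norm ℂ (x (ξ i)) (y (ξ i))
  rw [e1, e2, norm_smul, Real.norm_of_nonneg (by norm_num : (0 : ℝ) ≤ 1 / 2)]
  linarith

theorem le_N2 (m : H →L[ℂ] H) (i : I) : ‖m (ξ i)‖ ^ 2 ≤ N2 ξ m :=
  (sm2 hs m).le_tsum i fun _ _ => by positivity

theorem re_tr (m : H →L[ℂ] H) : (tr ξ (star m * m)).re = N2 ξ m := by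
  unfold tr N2
  rw [Complex.re_tsum (sm1 hs _)]
  refine tsum_congr fun i => ?_
  rw [inner_star_mul, re_inner_self]

variable
  (htr : ∀ m n, Com u m → Com u n → tr ξ (m * n) = tr ξ (n * m))

include hus htr in
theorem N2_star {m : H →L[ℂ] H} (hm : Com u m) : N2 ξ (star m) = N2 ξ m := by
  rw [← re_tr hs, ← re_tr hs, star_star, htr m (star m) hm (hm.star hus)]

variable
  (hinv : ∀ (g : G) m, Com u m → tr ξ (((π g : (H →L[ℂ] H)ˣ) : H →L[ℂ] H) * m *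
    (((π g)⁻¹ : (H →L[ℂ] H)ˣ) : H →L[ℂ] H)) = tr ξ m)
  (hπ : ∀ g, ‖((π g : (H →L[ℂ] H)ˣ) : H →L[ℂ] H)‖ ≤ d)

include hcov hus htr hinv hπ

theorem pi_xi (g : G) {m : H →L[ℂ] H} (hm : Com u m) :
    N2 ξ (m * ((π g : (H →L[ℂ] H)ˣ) : H →L[ℂ] H)) ≤ d ^ 2 * N2 ξ m := by
  have hd : 0 ≤ d := (norm_nonneg _).trans (hπ g)
  have hc1 : Com u (Rg π g 1) := Rg_com u π hcov hus g (fun a => by rw [one_mul, mul_one])
  have hc2 := pp_com u π hcov hus g
  have hc3 : ∀ {y : H →L[ℂ] H}, Com u y → Com u ((((π g)⁻¹ : (H →L[ℂ] H)ˣ) : H →L[ℂ] H) * y *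
      ((π g : (H →L[ℂ] H)ˣ) : H →L[ℂ] H)) := by
    intro y hy
    have := conj_com u π hcov hus g⁻¹ hy
    rwa [map_inv, inv_inv] at this
  have hi : ∀ {y : H →L[ℂ] H}, Com u y → tr ξ ((((π g)⁻¹ : (H →L[ℂ] H)ˣ) : H →L[ℂ] H) * y *
      ((π g : (H →L[ℂ] H)ˣ) : H →L[ℂ] H)) = tr ξ y := by
    intro y hy
    have := hinv g⁻¹ y hy
    rwa [map_inv, inv_inv] at this
  have hn : ‖((π g : (H →L[ℂ] H)ˣ) : H →L[ℂ] H)‖ ≤ d := hπ g
  have hpq : ((π g : (H →L[ℂ] H)ˣ) : H →L[ℂ] H) * (((π g)⁻¹ : (H →L[ℂ] H)ˣ) : H →L[ℂ] H) = 1 :=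
    Units.mul_inv _
  simp only [Rg, mul_one] at hc1
  generalize ((π g : (H →L[ℂ] H)ˣ) : H →L[ℂ] H) = p at *
  generalize (((π g)⁻¹ : (H →L[ℂ] H)ˣ) : H →L[ℂ] H) = q at *
  have hms : Com u (star m) := hm.star hus
  have e0 : star (m * p) * (m * p) = (star p * p) * (q * star m * p) * (q * m * p) := by
    calc star (m * p) * (m * p) = star p * 1 * star m * 1 * m * p := by
          rw [star_mul]
          simp only [mul_one, mul_assoc]
      _ = star p * (p * q) * star m * (p * q) * m * p := by rw [hpq]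
      _ = _ := by simp only [mul_assoc]
  have e2 : (q * m * p) * ((star p * p) * (q * star m * p))
      = q * (m * (p * star p) * star m) * p := by
    calc (q * m * p) * ((star p * p) * (q * star m * p))
        = q * m * p * star p * (p * q) * star m * p := by simp only [mul_assoc]
      _ = _ := by rw [hpq]; simp only [mul_assoc, one_mul]
  have hcM : Com u (m * (p * star p) * star m) := (hm.mul hc2).mul hms
  have e3 : tr ξ (star (m * p) * (m * p)) = tr ξ (m * (p * star p) * star m) := by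
    rw [e0, htr _ _ (hc1.mul (hc3 hms)) (hc3 hm), e2, hi hcM]
  have e4 : star (star p * star m) * (star p * star m) = m * (p * star p) * star m := by
    rw [star_mul, star_star, star_star]
    simp only [mul_assoc]
  have e5 : N2 ξ (m * p) = N2 ξ (star p * star m) := by
    rw [← re_tr hs, e3, ← e4, re_tr hs]
  rw [e5]
  refine (N2_mul_le hs _ _).trans ?_
  rw [norm_star, N2_star u hus hs htr hm]
  exact mul_le_mul_of_nonneg_right (pow_le_pow_left₀ (norm_nonneg _) hn 2) (N2_nonneg m)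

theorem Rg_xi (g : G) {m : H →L[ℂ] H} (hm : Com u m) : N2 ξ (Rg π g m) ≤ d ^ 4 * N2 ξ m := by
  have hd : 0 ≤ d := (norm_nonneg _).trans (hπ g)
  have h := pi_xi u π hcov hus hs htr hinv hπ g hm
  unfold Rg
  rw [mul_assoc]
  refine (N2_mul_le hs _ _).trans ?_
  rw [norm_star]
  calc _ ≤ d ^ 2 * (d ^ 2 * N2 ξ m) :=
        mul_le_mul (pow_le_pow_left₀ (norm_nonneg _) (hπ g) 2) h (N2_nonneg _) (by positivity)
    _ = _ := by ring

theorem xi_le (g : G) {m : H →L[ℂ] H} (hm : Com u m) : N2 ξ m ≤ d ^ 4 * N2 ξ (Rg π g m) := by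
  have h := Rg_xi u π hcov hus hs htr hinv hπ g⁻¹ (Rg_com u π hcov hus g hm)
  rwa [Rg_inv] at h

omit hcov hus hs htr hinv hπ in
/-- the squared invariant norm -/
def nn (ξ : I → H) (m : H →L[ℂ] H) : ℝ := ⨆ g : G, N2 ξ (Rg π g m)

theorem nn_bdd {m : H →L[ℂ] H} (hm : Com u m) :
    BddAbove (Set.range fun g : G => N2 ξ (Rg π g m)) := by
  refine ⟨d ^ 4 * N2 ξ m, ?_⟩
  rintro _ ⟨g, rfl⟩
  exact Rg_xi u π hcov hus hs htr hinv hπ g hm

omit hcov hus hs htr hinv hπ in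
theorem nn_inv (h : G) (m : H →L[ℂ] H) : nn π ξ (Rg π h m) = nn π ξ m := by
  unfold nn
  simp only [Rg_Rg]
  exact (Group.mulLeft_bijective h).surjective.iSup_comp (fun g => N2 ξ (Rg π g m))

theorem nn_par {m n : H →L[ℂ] H} (hm : Com u m) (hn : Com u n) (hd0 : 0 < d) :
    nn π ξ ((1 / 2 : ℝ) • (m + n)) + N2 ξ (m - n) / (4 * d ^ 4) ≤
      (nn π ξ m + nn π ξ n) / 2 := by
  have key : ∀ g : G, N2 ξ (Rg π g ((1 / 2 : ℝ) • (m + n))) ≤
      (nn π ξ m + nn π ξ n) / 2 - N2 ξ (m - n) / (4 * d ^ 4) := by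
    intro g
    have h1 : N2 ξ (Rg π g m) ≤ nn π ξ m :=
      le_ciSup (nn_bdd u π hcov hus hs htr hinv hπ hm) g
    have h2 : N2 ξ (Rg π g n) ≤ nn π ξ n :=
      le_ciSup (nn_bdd u π hcov hus hs htr hinv hπ hn) g
    have h3 : N2 ξ (m - n) ≤ d ^ 4 * N2 ξ (Rg π g (m - n)) :=
      xi_le u π hcov hus hs htr hinv hπ g (hm.sub hn)
    have h4 : N2 ξ (m - n) / (4 * d ^ 4) ≤ N2 ξ (Rg π g (m - n)) / 4 := by
      rw [div_le_div_iff₀ (by positivity) (by norm_num)]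
      nlinarith
    rw [Rg_sub] at h4
    have e := N2_par hs (Rg π g m) (Rg π g n)
    rw [Rg_smul, Rg_add, e]
    linarith
  have := ciSup_le key
  unfold nn at this ⊢
  linarith

omit hcov hus hs htr hinv hπ in
/-- the convex hull of the `π(g)* π(g)` -/
def KK : Set (H →L[ℂ] H) := convexHull ℝ (Set.range fun g : G => Rg π g 1)

omit hcov hus hs htr hinv hπ in
theorem Rg_KK (h : G) {m : H →L[ℂ] H} (hm : m ∈ KK π) : Rg π h m ∈ KK π := by
  have hsub : KK π ⊆ {m | Rg π h m ∈ KK π} := by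
    refine convexHull_min ?_ ?_
    · rintro _ ⟨g, rfl⟩
      change Rg π h (Rg π g 1) ∈ KK π
      rw [Rg_Rg]
      exact subset_convexHull ℝ _ ⟨g * h, rfl⟩
    · intro x hx y hy a b ha hb hab
      change Rg π h (a • x + b • y) ∈ KK π
      rw [Rg_add, Rg_smul, Rg_smul]
      exact convex_convexHull ℝ _ hx hy ha hb hab
  exact hsub hm

omit hs htr hinv hπ in
theorem KK_com {m : H →L[ℂ] H} (hm : m ∈ KK π) : Com u m := by
  have hsub : KK π ⊆ {m | Com u m} := by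
    refine convexHull_min ?_ ?_
    · rintro _ ⟨g, rfl⟩
      exact Rg_com u π hcov hus g (fun a => by rw [one_mul, mul_one])
    · intro x hx y hy a b _ _ _
      exact (Com.smul a hx).add (Com.smul b hy)
  exact hsub hm

omit hcov hus hs htr hinv in
theorem KK_norm {m : H →L[ℂ] H} (hm : m ∈ KK π) : ‖m‖ ≤ d ^ 2 := by
  have hsub : KK π ⊆ Metric.closedBall 0 (d ^ 2) := by
    refine convexHull_min ?_ (convex_closedBall _ _)
    rintro _ ⟨g, rfl⟩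
    rw [mem_closedBall_zero_iff]
    simp only [Rg, mul_one]
    refine (norm_mul_le _ _).trans ?_
    rw [norm_star, sq]
    exact mul_le_mul (hπ g) (hπ g) (norm_nonneg _) ((norm_nonneg _).trans (hπ g))
  have := hsub hm
  rwa [mem_closedBall_zero_iff] at this

omit hcov hus hs htr hinv hπ in
theorem KK_sa {m : H →L[ℂ] H} (hm : m ∈ KK π) : IsSelfAdjoint m := by
  have hsub : KK π ⊆ {m | IsSelfAdjoint m} := by
    refine convexHull_min ?_ ?_
    · rintro _ ⟨g, rfl⟩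
      simp only [Set.mem_setOf_eq, IsSelfAdjoint, Rg, mul_one, star_mul, star_star]
    · intro x hx y hy a b _ _ _
      have h1 : star x = x := hx
      have h2 : star y = y := hy
      change star (a • x + b • y) = a • x + b • y
      rw [star_add, star_smul, star_smul, h1, h2]
      rfl
  exact hsub hm

omit hcov hus hs htr hinv in
theorem KK_low (hd0 : 0 < d) {m : H →L[ℂ] H} (hm : m ∈ KK π) (x : H) :
    (d ^ 2)⁻¹ * ‖x‖ ^ 2 ≤ (⟪m x, x⟫_ℂ).re := by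
  have hsub : KK π ⊆ {m | (d ^ 2)⁻¹ * ‖x‖ ^ 2 ≤ (⟪m x, x⟫_ℂ).re} := by
    refine convexHull_min ?_ ?_
    · rintro _ ⟨g, rfl⟩
      have h1 : ‖x‖ ≤ d * ‖((π g : (H →L[ℂ] H)ˣ) : H →L[ℂ] H) x‖ := by
        refine low_bound (π g) ?_ x
        rw [← map_inv]
        exact hπ _
      have h2 : (⟪Rg π g 1 x, x⟫_ℂ).re = ‖((π g : (H →L[ℂ] H)ˣ) : H →L[ℂ] H) x‖ ^ 2 := by
        simp only [Rg, mul_one]
        rw [inner_star_mul, re_inner_self]
      change (d ^ 2)⁻¹ * ‖x‖ ^ 2 ≤ (⟪Rg π g 1 x, x⟫_ℂ).re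
      rw [h2, inv_mul_le_iff₀ (by positivity)]
      calc ‖x‖ ^ 2 ≤ (d * ‖((π g : (H →L[ℂ] H)ˣ) : H →L[ℂ] H) x‖) ^ 2 :=
            pow_le_pow_left₀ (norm_nonneg _) h1 2
        _ = _ := by ring
    · intro p hp q hq a b ha hb hab
      have h1 : (d ^ 2)⁻¹ * ‖x‖ ^ 2 ≤ (⟪p x, x⟫_ℂ).re := hp
      have h2 : (d ^ 2)⁻¹ * ‖x‖ ^ 2 ≤ (⟪q x, x⟫_ℂ).re := hq
      change (d ^ 2)⁻¹ * ‖x‖ ^ 2 ≤ (⟪(a • p + b • q) x, x⟫_ℂ).re
      have e : (⟪(a • p + b • q) x, x⟫_ℂ).re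
          = a * (⟪p x, x⟫_ℂ).re + b * (⟪q x, x⟫_ℂ).re := by
        have e1 : (a • p + b • q) x = (a : ℂ) • p x + (b : ℂ) • q x := rfl
        rw [e1, inner_add_left, inner_smul_left, inner_smul_left, Complex.conj_ofReal,
          Complex.conj_ofReal, Complex.add_re, Complex.re_ofReal_mul, Complex.re_ofReal_mul]
      rw [e]
      calc (d ^ 2)⁻¹ * ‖x‖ ^ 2 = a * ((d ^ 2)⁻¹ * ‖x‖ ^ 2) + b * ((d ^ 2)⁻¹ * ‖x‖ ^ 2) := by
            rw [← add_mul, hab, one_mul]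
        _ ≤ _ := add_le_add (mul_le_mul_of_nonneg_left h1 ha) (mul_le_mul_of_nonneg_left h2 hb)
  exact hsub hm

/-- the invariant form -/
theorem exists_fixed (hd0 : 0 < d) (hfaith : ∀ m, Com u m → (∀ i, m (ξ i) = 0) → m = 0) :
    ∃ T : H →L[ℂ] H, IsSelfAdjoint T ∧ Com u T ∧ (∀ x, (d ^ 2)⁻¹ * ‖x‖ ^ 2 ≤ (⟪T x, x⟫_ℂ).re) ∧
      ∀ g, Rg π g T = T := by
  classical
  set μ : ℝ := sInf (nn π ξ '' KK π) with hμ
  have hbd : BddBelow (nn π ξ '' KK π) := by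
    refine ⟨0, ?_⟩
    rintro _ ⟨m, _, rfl⟩
    exact Real.iSup_nonneg fun g => N2_nonneg _
  have hne : (nn π ξ '' KK π).Nonempty :=
    ⟨_, Rg π 1 1, subset_convexHull ℝ _ ⟨1, rfl⟩, rfl⟩
  have hex : ∀ n : ℕ, ∃ m ∈ KK π, nn π ξ m < μ + 1 / ((n : ℝ) + 1) := by
    intro n
    have h : sInf (nn π ξ '' KK π) < μ + 1 / ((n : ℝ) + 1) := by
      rw [← hμ]
      have : (0 : ℝ) < 1 / ((n : ℝ) + 1) := by positivity
      linarith
    obtain ⟨_, ⟨m, hm, rfl⟩, h2⟩ := exists_lt_of_csInf_lt hne h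
    exact ⟨m, hm, h2⟩
  choose m hmK hmμ using hex
  -- the key estimate
  have key : ∀ (n : ℕ) (h : G), N2 ξ (Rg π h (m n) - m n) ≤ 4 * d ^ 4 * (1 / ((n : ℝ) + 1)) := by
    intro n h
    have hK2 : Rg π h (m n) ∈ KK π := Rg_KK π h (hmK n)
    have h1 := nn_par u π hcov hus hs htr hinv hπ (KK_com u π hcov hus hK2)
      (KK_com u π hcov hus (hmK n)) hd0
    have hmem : (1 / 2 : ℝ) • (Rg π h (m n) + m n) ∈ KK π := by
      rw [smul_add]
      exact convex_convexHull ℝ _ hK2 (hmK n) (by norm_num) (by norm_num) (by norm_num)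
    have h2 : μ ≤ nn π ξ ((1 / 2 : ℝ) • (Rg π h (m n) + m n)) := csInf_le hbd ⟨_, hmem, rfl⟩
    rw [nn_inv] at h1
    have h3 := hmμ n
    have h4 : N2 ξ (Rg π h (m n) - m n) / (4 * d ^ 4) ≤ 1 / ((n : ℝ) + 1) := by linarith
    rw [div_le_iff₀ (by positivity)] at h4
    linarith
  set U : Ultrafilter ℕ := Ultrafilter.of atTop with hU'
  have hU : (U : Filter ℕ) ≤ atTop := Ultrafilter.of_le _
  obtain ⟨T, hT⟩ := exists_ulim U m (d ^ 2) (fun n x y =>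
    (norm_inner_le_norm _ _).trans (mul_le_mul_of_nonneg_right (((m n).le_opNorm _).trans
      (mul_le_mul_of_nonneg_right (KK_norm π hπ (hmK n)) (norm_nonneg _))) (norm_nonneg _)))
  have hTs : IsSelfAdjoint T := by
    rw [ContinuousLinearMap.isSelfAdjoint_iff_isSymmetric]
    intro x y
    change ⟪T x, y⟫_ℂ = ⟪x, T y⟫_ℂ
    refine tendsto_nhds_unique (hT x y) ?_
    have h1 : Tendsto (fun i => conj ⟪m i y, x⟫_ℂ) U (𝓝 (conj ⟪T y, x⟫_ℂ)) :=
      (Complex.continuous_conj.tendsto _).comp (hT y x)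
    rw [inner_conj_symm] at h1
    refine h1.congr fun i => ?_
    have := (ContinuousLinearMap.isSelfAdjoint_iff_isSymmetric.1 (KK_sa π (hmK i))) x y
    change ⟪m i x, y⟫_ℂ = ⟪x, m i y⟫_ℂ at this
    rw [this, inner_conj_symm]
  have hTc : Com u T := by
    intro a
    ext x
    refine ext_inner_right ℂ fun z => ?_
    change ⟪T (u a x), z⟫_ℂ = ⟪(u a) (T x), z⟫_ℂ
    have e : ∀ v, ⟪(u a) v, z⟫_ℂ = ⟪v, (u (star a)) z⟫_ℂ := by
      intro v
      rw [hus, ContinuousLinearMap.star_eq_adjoint, ContinuousLinearMap.adjoint_inner_right]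
    rw [e]
    refine tendsto_nhds_unique (hT _ _) ((hT x (u (star a) z)).congr fun i => ?_)
    have h1 := congrArg (fun F : H →L[ℂ] H => F x) (KK_com u π hcov hus (hmK i) a)
    change m i (u a x) = (u a) (m i x) at h1
    rw [h1, e]
  refine ⟨T, hTs, hTc, fun x => ?_, fun g => ?_⟩
  · refine ge_of_tendsto ((Complex.continuous_re.tendsto _).comp (hT x x))
      (Filter.Eventually.of_forall fun i => ?_)
    exact KK_low π hπ hd0 (hmK i) x
  · have hD : Com u (Rg π g T - T) := (Rg_com u π hcov hus g hTc).sub hTc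
    have hDξ : ∀ i, (Rg π g T - T) (ξ i) = 0 := by
      intro i
      refine ext_inner_right ℂ fun z => ?_
      rw [inner_zero_left]
      set p : H →L[ℂ] H := ((π g : (H →L[ℂ] H)ˣ) : H →L[ℂ] H) with hp
      have e : ∀ S : H →L[ℂ] H, ⟪(Rg π g S - S) (ξ i), z⟫_ℂ = ⟪S (p (ξ i)), p z⟫_ℂ - ⟪S (ξ i), z⟫_ℂ := by
        intro S
        change ⟪(star p) (S (p (ξ i))) - S (ξ i), z⟫_ℂ = _
        rw [inner_sub_left, ContinuousLinearMap.star_eq_adjoint,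
          ContinuousLinearMap.adjoint_inner_left]
      rw [e]
      refine tendsto_nhds_unique ((hT (p (ξ i)) (p z)).sub (hT (ξ i) z)) ?_
      have hlim : Tendsto (fun n : ℕ => √(4 * d ^ 4 * (1 / ((n : ℝ) + 1))) * ‖z‖) U (𝓝 0) := by
        have h0 : Tendsto (fun n : ℕ => 4 * d ^ 4 * (1 / ((n : ℝ) + 1))) atTop (𝓝 0) := by
          have := (tendsto_one_div_add_atTop_nhds_zero_nat (𝕜 := ℝ)).const_mul (4 * d ^ 4)
          simpa using this
        have h1 := ((Real.continuous_sqrt.tendsto _).comp h0).mul_const ‖z‖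
        rw [Real.sqrt_zero, zero_mul] at h1
        exact h1.mono_left hU
      refine squeeze_zero_norm (fun n => ?_) hlim
      rw [← e]
      refine (norm_inner_le_norm _ _).trans (mul_le_mul_of_nonneg_right ?_ (norm_nonneg _))
      exact Real.le_sqrt_of_sq_le ((le_N2 hs _ i).trans (key n g))
    have h3 : Rg π g T - T = 0 := hfaith _ hD hDξ
    exact sub_eq_zero.1 h3

/-- arbitrary groups, trace vectors -/
theorem traceCase (hfaith : ∀ m, Com u m → (∀ i, m (ξ i) = 0) → m = 0) : ∃ κ : ℝ, SimOn u π ⊤ κ := by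
  have hd0 : 0 ≤ d := (norm_nonneg _).trans (hπ 1)
  have hπ' : ∀ g, ‖((π g : (H →L[ℂ] H)ˣ) : H →L[ℂ] H)‖ ≤ d + 1 := fun g => (hπ g).trans (by linarith)
  obtain ⟨T, h1, h2, h3, h4⟩ := exists_fixed u π hcov hus hs htr hinv hπ' (by linarith) hfaith
  have hup : ∀ x, (⟪T x, x⟫_ℂ).re ≤ ‖T‖ * ‖x‖ ^ 2 := by
    intro x
    calc (⟪T x, x⟫_ℂ).re ≤ ‖⟪T x, x⟫_ℂ‖ := Complex.re_le_norm _
      _ ≤ ‖T x‖ * ‖x‖ := norm_inner_le_norm _ _
      _ ≤ (‖T‖ * ‖x‖) * ‖x‖ := mul_le_mul_of_nonneg_right (T.le_opNorm x) (norm_nonneg _)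
      _ = _ := by ring
  obtain ⟨ζ, hζT, _, _⟩ := exists_root T h1 ((d + 1) ^ 2)⁻¹ ‖T‖ (by positivity) (norm_nonneg _)
    h3 hup
  refine ⟨max ‖(ζ : H →L[ℂ] H)‖ ‖((ζ⁻¹ : (H →L[ℂ] H)ˣ) : H →L[ℂ] H)‖, ζ, le_max_left _ _,
    le_max_right _ _, fun x => ?_, fun g _ => unitary_of_inv ζ (π g) hζT (h4 g)⟩
  rw [sim_iff, hζT, ← hus]
  exact h2 (star x)

end

end TH27.AA
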